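import Pool.Agent.K3h54.RD.Dio
import Pool.Agent.Y933.KH.Box

/-!
# The law of two boxes of the space-time diagram, for thin families of configurations
-/

set_option autoImplicit false

namespace Pool.Agent.K3h54.RD

open Finset MeasureTheory Real
open Pool.Agent.H429R2.Auto
open Pool.Agent.Y933.KD (Leb hat e e_add hat_Leb)
open Pool.Agent.Y933.KH
open Pool.Agent.R459.Eq (Decays)
open Pool.Agent.R501.MT (wm wm_prob wm_int hat_wm1 e_ee)

open Classical in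
lemma wm_real {ι : Type} {Ω : Finset ι} {w : ι → ℝ} (h0 : ∀ i ∈ Ω, 0 ≤ w i) (x : ι → ℝ) {U : Set ℝ}
    (hU : MeasurableSet U) : (wm Ω w x).real U = ∑ i ∈ Ω, if x i ∈ U then w i else 0 := by
  rw [← integral_indicator_one hU, wm_int h0]
  refine sum_congr rfl fun i _ => ?_
  by_cases h : x i ∈ U
  · rw [Set.indicator_of_mem h, if_pos h]
    simp
  · rw [Set.indicator_of_notMem h, if_neg h]
    simp

/-- the cell `(n, i)` is in the reduced light cone and not near the window -/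
def Inn (A N : ℕ) (δ : ℝ) (s : ℤ) (n : ℕ) (i : ℤ) : Prop :=
  δ * N ≤ n ∧ n ≤ A * N ∧ s - n * kap + δ * N ≤ i ∧ (i : ℝ) ≤ s + N + n - δ * N

open Classical in
/-- **the law of two boxes** -/
theorem box_two (A D : ℕ) (δ : ℝ) (hδ : 0 < δ) (F A' : ℕ) (hF : 1 ≤ F) (γ : ℝ) (hγ0 : 0 < γ)
    (hγ1 : γ < 1) (Δ : ℝ) (hΔ : 0 < Δ) : ∃ N0 : ℕ,
    ∀ N : ℕ, N0 ≤ N → ∀ (y : Conf) (s : ℤ) (n : Fin 2 → ℕ) (i : Fin 2 → ℤ),
    (∀ j, Inn A N δ s (n j) (i j)) → (∀ j l, (i j : ℝ) - i l ≤ min δ 1 / 16 * N) →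
    ∀ (ι : Type) (Ω : Finset ι) (wt : ι → ℝ) (v : ι → ℤ), Decays 6 F A' N γ 1 Ω wt v →
    (∀ x ∈ Ω, 0 ≤ v x ∧ v x < 6 ^ N) →
    ∀ S : Set (Fin 2 → Fin D → Fin D → Fin 6),
    |(∑ x ∈ Ω, if boxes D n i (putW y s N (v x).toNat) ∈ S then wt x else 0) -
      bern.real {x | boxes D n i x ∈ S}| ≤ Δ := by
  obtain ⟨M, hM⟩ : ∃ M : ℕ, M = 3 * D := ⟨_, rfl⟩
  have h6M : (0 : ℝ) < (6 : ℝ) ^ M := by positivity
  obtain ⟨CV, hCV⟩ : ∃ CV : ℝ, CV = ((6 : ℝ) ^ M) ^ 2 := ⟨_, rfl⟩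
  have hCV0 : 0 < CV := by rw [hCV]; positivity
  -- the precision of the test
  obtain ⟨D2, hD2⟩ : ∃ D2 : ℝ, D2 = Δ / CV := ⟨_, rfl⟩
  have hD20 : 0 < D2 := by rw [hD2]; positivity
  obtain ⟨K, hK⟩ : ∃ K : ℕ, K = ⌈48 / D2⌉₊ + 1 := ⟨_, rfl⟩
  have hK0 : 0 < K := by omega
  have hKR : (0 : ℝ) < K := by exact_mod_cast hK0
  have hK1 : 24 / (K : ℝ) ≤ D2 / 2 := by
    have h1 : 48 / D2 ≤ K := by
      rw [hK]
      push_cast
      linarith [Nat.le_ceil (48 / D2)]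
    rw [div_le_iff₀ hD20] at h1
    rw [div_le_iff₀ hKR]
    linarith
  obtain ⟨M', hM'⟩ : ∃ M' : ℝ, M' = (2 * (K : ℝ) ^ 3 + 1) ^ 2 + 10 := ⟨_, rfl⟩
  have hM'0 : 0 < M' := by rw [hM']; positivity
  obtain ⟨Δ1, hΔ1⟩ : ∃ Δ1, Δ1 = D2 / (2 * M') := ⟨_, rfl⟩
  have hΔ10 : 0 < Δ1 := by rw [hΔ1]; positivity
  have hΔD : (2 * (K : ℝ) ^ 3 + 1) ^ 2 * Δ1 + (2 : ℕ) * (12 / K + 5 * Δ1) ≤ D2 := by
    have e3 : M' * Δ1 = D2 / 2 := by rw [hΔ1]; field_simp
    have e4 : (2 * (K : ℝ) ^ 3 + 1) ^ 2 * Δ1 + (2 : ℕ) * (12 / K + 5 * Δ1) = M' * Δ1 + 24 / K := by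
      rw [hM']; push_cast; ring
    rw [e4, e3]
    linarith
  obtain ⟨N₀, hN₀⟩ := exists_pow_lt_of_lt_one hΔ10 hγ1
  obtain ⟨J₀, hJ₀⟩ : ∃ J₀, J₀ = A' * (N₀ + 1) + 1 := ⟨_, rfl⟩
  -- the geometry
  obtain ⟨δ1, hδ1⟩ : ∃ δ1, δ1 = min δ 1 := ⟨_, rfl⟩
  have hδ10 : 0 < δ1 := by rw [hδ1]; exact lt_min hδ one_pos
  have hδ1a : δ1 ≤ δ := by rw [hδ1]; exact min_le_left _ _
  have hδ1b : δ1 ≤ 1 := by rw [hδ1]; exact min_le_right _ _
  obtain ⟨δ2, hδ2⟩ : ∃ δ2, δ2 = δ1 / 2 := ⟨_, rfl⟩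
  have hδ20 : 0 < δ2 := by rw [hδ2]; positivity
  obtain ⟨N1, hcount⟩ := cone_count A δ2 hδ20 (by rw [hδ2]; linarith) F J₀ K hF (by omega)
  obtain ⟨N2, hN2⟩ := exists_nat_ge (D / δ2 : ℝ)
  refine ⟨N1 + N2 + J₀, ?_⟩
  intro N hN y s n i hcone hclose ι Ω wt v hdec hv S
  have hN0 : (0 : ℝ) ≤ N := Nat.cast_nonneg N
  have hDN : (D : ℝ) ≤ δ2 * N := by
    have h1 : (N2 : ℝ) ≤ N := by exact_mod_cast (by omega : N2 ≤ N)
    have h2 := hN2.trans h1
    rw [div_le_iff₀ hδ20] at h2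
    linarith
  have h0 := hdec.nonneg
  have h1' := hdec.sum
  -- the main case
  obtain ⟨p, hp⟩ : ∃ p : ℤ, p = s - 1 + N := ⟨_, rfl⟩
  obtain ⟨E, hE⟩ : ∃ E : ℕ, E = EE A N := ⟨_, rfl⟩
  obtain ⟨s0, hs0⟩ : ∃ s0 : ℤ, s0 = p - E := ⟨_, rfl⟩
  obtain ⟨t, ht⟩ : ∃ t : Fin 2 → ℤ, t = fun j => i j - D - 1 - p := ⟨_, rfl⟩
  have htj : ∀ j, t j = i j - D - 1 - p := fun j => by rw [ht]
  have hin : ∀ j, InCone A N δ2 (n j) (t j) := by
    intro j
    obtain ⟨_, h1, h2, h3⟩ := hcone j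
    have h4 : δ1 * N ≤ δ * N := by gcongr
    have h5 : δ2 * N + δ2 * N = δ1 * N := by rw [hδ2]; ring
    have h6 : (0 : ℝ) ≤ D := Nat.cast_nonneg D
    refine ⟨h1, ?_, ?_⟩
    · rw [htj, hp]
      push_cast
      linarith
    · rw [htj, hp]
      push_cast
      nlinarith
  have htime : ∀ j, δ2 * N ≤ n j := by
    intro j
    obtain ⟨h1, _⟩ := hcone j
    have h4 : δ2 * N ≤ δ * N := by
      gcongr
      rw [hδ2]
      linarith
    linarith
  have htclose : ∀ j l, (t j : ℝ) - t l ≤ δ2 / 8 * N := by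
    intro j l
    rw [htj, htj]
    push_cast
    have := hclose j l
    rw [← hδ1] at this
    rw [hδ2]
    linarith
  have hleft : ∀ j, s0 + 1 ≤ i j - D - n j := by
    intro j
    have h1 := cone_b hδ20 (hin j)
    rw [htj, ← hE] at h1
    omega
  obtain ⟨q, hq⟩ : ∃ q : Fin 2 → ℤ, q = fun j => qq A N (n j) (t j) := ⟨_, rfl⟩
  have hqj : ∀ j, q j = qq A N (n j) (t j) := fun j => by rw [hq]
  have hq0 : ∀ j, q j ≠ 0 := fun j => by rw [hqj]; exact (qq_pos _ _ _ _).ne'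
  have hqv : ∀ j, ((q j : ℤ) : ℝ) = (6 : ℝ) ^ (i j - D - 1) * (3 / 2) ^ n j * 6 ^ (-s0) := by
    intro j
    rw [hqj, qq_val hδ20 (hin j), ← hE, htj, hs0]
    have e1 : (6 : ℝ) ^ (i j - D - 1 - p) * (6 : ℝ) ^ E = (6 : ℝ) ^ (i j - D - 1) * 6 ^ (-(p - E)) := by
      rw [← zpow_natCast, ← zpow_add₀ (by norm_num), ← zpow_add₀ (by norm_num)]
      congr 1
      ring
    linear_combination (3 / 2 : ℝ) ^ n j * e1
  -- the set of configurations
  obtain ⟨B, hB⟩ : ∃ B : Set Conf, B = {x | boxes D n i x ∈ S} := ⟨_, rfl⟩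
  obtain ⟨T, hT1, hT2⟩ : ∃ T : ℕ, (∀ j, i j + 2 * D + n j ≤ s0 + T) ∧ s + N ≤ s0 + T := by
    refine ⟨∑ j, (i j + 2 * D + n j - s0).toNat + (s + N - s0).toNat, fun j => ?_, ?_⟩
    · have h1 : (i j + 2 * D + n j - s0).toNat ≤ ∑ j, (i j + 2 * D + n j - s0).toNat :=
        Finset.single_le_sum (f := fun j => (i j + 2 * D + n j - s0).toNat)
          (fun _ _ => Nat.zero_le _) (mem_univ j)
      omega
    · omega
  have hdep : DepOn s0 T B := by
    intro x x' hxx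
    have h1 : boxes D n i x = boxes D n i x' := by
      funext j a b
      unfold boxes
      have ha := a.2
      have hb := b.2
      have h2 := hleft j
      have h3 := hT1 j
      refine iter_local (n j + a) (a := i j + b) (b := i j + b) (fun l hl1 hl2 => ?_) _ le_rfl le_rfl
      push_cast at hl1 hl2
      exact hxx l (by omega) (by omega)
    rw [hB]
    simp only [Set.mem_ofPred_eq]
    rw [h1]
  -- the union of the elementary events
  set I : (Fin 2 → ℕ) → Set ℝ := fun w => EvQ q (fun j => (w j : ℝ) / 6 ^ M)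
    (fun j => ((w j : ℝ) + 1) / 6 ^ M) with hI
  obtain ⟨V, hV⟩ : ∃ V : Finset (Fin 2 → ℕ), V = (Fintype.piFinset (fun _ : Fin 2 => range (6 ^ M))).filter
    (fun w => ∃ x, codes D n i x = w ∧ x ∈ B) := ⟨_, rfl⟩
  obtain ⟨U, hU⟩ : ∃ U : Set ℝ, U = ⋃ w ∈ V, I w := ⟨_, rfl⟩
  have hVcard : (V.card : ℝ) ≤ ((6 : ℝ) ^ M) ^ 2 := by
    have h1 : V.card ≤ (6 ^ M) ^ 2 := by
      rw [hV]
      refine (card_filter_le _ _).trans ?_
      rw [Fintype.card_piFinset]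
      simp
    exact_mod_cast h1
  have hcode : ∀ z : ℝ, 0 ≤ z → ∀ w : Fin 2 → ℕ, (∀ j, w j < 6 ^ M) →
      (z ∈ I w ↔ codes D n i (dg (z * 6 ^ (-s0))) = w) := by
    intro z hz w hw
    have hβ : 0 ≤ z * (6 : ℝ) ^ (-s0) := by positivity
    have h1 : ∀ j, (codes D n i (dg (z * 6 ^ (-s0))) j = w j ↔
        (w j : ℝ) / 6 ^ M ≤ Int.fract ((q j : ℝ) * z) ∧
          Int.fract ((q j : ℝ) * z) < ((w j : ℝ) + 1) / 6 ^ M) := by
      intro j
      unfold codes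
      rw [← hM, rd_rep (by positivity) (rep_iter hβ (rep_dg _) (n j)) _ M (w j) (hw j)]
      have e1 : (6 : ℝ) ^ (i j - D - 1) * ((3 / 2) ^ n j * (z * 6 ^ (-s0))) = q j * z := by
        rw [hqv]
        ring
      rw [e1]
    rw [hI]
    constructor
    · intro h2
      funext j
      exact (h1 j).2 (h2 j)
    · intro h2 j
      exact (h1 j).1 (congrFun h2 j)
  have hUB : ∀ z : ℝ, 0 ≤ z → (z ∈ U ↔ dg (z * 6 ^ (-s0)) ∈ B) := by
    intro z hz
    rw [hU]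
    simp only [Set.mem_iUnion]
    constructor
    · rintro ⟨w, hw, hzw⟩
      rw [hV, mem_filter, Fintype.mem_piFinset] at hw
      obtain ⟨hw1, x, hx1, hx2⟩ := hw
      have h1 := (hcode z hz w (fun j => mem_range.1 (hw1 j))).1 hzw
      rw [hB] at hx2 ⊢
      have h2 := boxes_of_codes (h1.trans hx1.symm)
      simp only [Set.mem_ofPred_eq] at hx2 ⊢
      rw [h2]
      exact hx2
    · intro h1
      refine ⟨codes D n i (dg (z * 6 ^ (-s0))), ?_, ?_⟩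
      · rw [hV, mem_filter, Fintype.mem_piFinset]
        refine ⟨fun j => ?_, _, rfl, h1⟩
        rw [mem_range, hM]
        exact rd_lt _ _ _
      · exact (hcode z hz _ (fun j => by rw [hM]; exact rd_lt _ _ _)).2 rfl
  -- additivity
  have hadd : ∀ (P : Measure ℝ) [IsProbabilityMeasure P], P.real U = ∑ w ∈ V, P.real (I w) := by
    intro P _
    rw [hU, measureReal_biUnion_finset]
    · intro a ha b hb hab
      rw [Function.onFun, Set.disjoint_left]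
      intro z hza hzb
      apply hab
      funext j
      have h1 := hza j
      have h2 := hzb j
      obtain ⟨h3, h4⟩ := h1
      obtain ⟨h5, h6⟩ := h2
      rw [div_le_iff₀ h6M] at h3 h5
      rw [lt_div_iff₀ h6M] at h4 h6
      have h7 : (a j : ℝ) < b j + 1 := by linarith
      have h8 : (b j : ℝ) < a j + 1 := by linarith
      have h9 : a j < b j + 1 := by exact_mod_cast h7
      have h10 : b j < a j + 1 := by exact_mod_cast h8
      omega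
    · intro w _
      exact measurableSet_EvQ _ _ _
  have hUmeas : MeasurableSet U := by
    rw [hU]
    exact Finset.measurableSet_biUnion _ fun w _ => measurableSet_EvQ _ _ _
  -- the finite configuration
  obtain ⟨x0, hx0⟩ : ∃ x0 : Conf, x0 = fun l => if (s ≤ l ∧ l < s + N) ∨ l ≤ s0 ∨ s0 + T < l then 0 else y l :=
    ⟨_, rfl⟩
  have hfin : IsFin x0 := by
    refine (Set.finite_Icc (s0 + 1) (s0 + T)).subset ?_
    intro l hl
    simp only [Set.mem_ofPred_eq] at hl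
    rw [hx0] at hl
    simp only at hl
    split_ifs at hl with h1
    · exact absurd rfl hl
    · rw [Set.mem_Icc]
      omega
  obtain ⟨m0, k0, hrep, _, _⟩ := exists_rep hfin
  obtain ⟨α0, hα0⟩ : ∃ α0 : ℝ, α0 = (m0 : ℝ) / 6 ^ k0 := ⟨_, rfl⟩
  have hα00 : 0 ≤ α0 := by rw [hα0]; positivity
  rw [← hα0] at hrep
  have hrepW : ∀ W < 6 ^ N, Rep (putW x0 s N W) (α0 + W * 6 ^ (-p)) := by
    intro W hW
    rw [hp]
    refine rep_put hα00 hrep s N (fun l h1 h2 => ?_) W hW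
    rw [hx0]
    simp only
    rw [if_pos (Or.inl ⟨h1, h2⟩)]
  have hputB : ∀ W, putW x0 s N W ∈ B ↔ putW y s N W ∈ B := by
    intro W
    refine hdep _ _ fun l h1 h2 => ?_
    unfold putW
    split_ifs with h3
    · rfl
    · rw [hx0]
      simp only
      rw [if_neg]
      omega
  -- the measure
  obtain ⟨Z, hZ⟩ : ∃ Z : ι → ℝ, Z = fun x => (v x : ℝ) * (1 / 6 ^ E) + α0 * 6 ^ s0 := ⟨_, rfl⟩
  have hZ0 : ∀ x ∈ Ω, 0 ≤ Z x := fun x hx => by
    have : (0 : ℝ) ≤ v x := by exact_mod_cast (hv x hx).1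
    rw [hZ]
    positivity
  have hZval : ∀ x ∈ Ω, Z x * 6 ^ (-s0) = α0 + ((v x).toNat : ℕ) * 6 ^ (-p) := by
    intro x hx
    have e0 : (((v x).toNat : ℕ) : ℝ) = v x := by
      have : (((v x).toNat : ℕ) : ℤ) = v x := Int.toNat_of_nonneg (hv x hx).1
      exact_mod_cast this
    rw [hZ, e0]
    simp only
    have e1 : (6 : ℝ) ^ s0 * 6 ^ (-s0) = 1 := by
      rw [← zpow_add₀ (by norm_num)]; simp
    have e2 : (1 / (6 : ℝ) ^ E) * 6 ^ (-s0) = 6 ^ (-p) := by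
      rw [hs0, one_div, ← zpow_natCast, ← zpow_neg, ← zpow_add₀ (by norm_num)]
      congr 1
      ring
    calc ((v x : ℝ) * (1 / 6 ^ E) + α0 * (6 : ℝ) ^ s0) * 6 ^ (-s0) =
          α0 * ((6 : ℝ) ^ s0 * 6 ^ (-s0)) + v x * ((1 / 6 ^ E) * 6 ^ (-s0)) := by ring
      _ = _ := by rw [e1, e2, mul_one]
  have hprob : IsProbabilityMeasure (wm Ω wt Z) := wm_prob h0 h1' Z
  have hPU : (wm Ω wt Z).real U =
      ∑ x ∈ Ω, if boxes D n i (putW y s N (v x).toNat) ∈ S then wt x else 0 := by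
    rw [wm_real h0 Z hUmeas]
    refine sum_congr rfl fun x hx => ?_
    have hlt : (v x).toNat < 6 ^ N := by
      have h3 := (hv x hx).2
      have h4 : (((v x).toNat : ℕ) : ℤ) = v x := Int.toNat_of_nonneg (hv x hx).1
      have : (((v x).toNat : ℕ) : ℤ) < ((6 ^ N : ℕ) : ℤ) := by rw [h4]; push_cast; exact h3
      exact_mod_cast this
    have h3 : Z x ∈ U ↔ boxes D n i (putW y s N (v x).toNat) ∈ S := by
      rw [hUB _ (hZ0 x hx), hZval x hx, ← rep_eq (hrepW _ hlt), hputB, hB]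
      rfl
    by_cases h4 : Z x ∈ U
    · rw [if_pos h4, if_pos (h3.1 h4)]
    · rw [if_neg h4, if_neg (fun h5 => h4 (h3.2 h5))]
  have hLU : Leb.real U = bern.real {x | boxes D n i x ∈ S} := by
    rw [leb_dep hdep hUB, ← bern_dep hdep, hB]
  rw [← hPU, ← hLU, hadd, hadd, ← sum_sub_distrib]
  refine (abs_sum_le_sum_abs _ _).trans ?_
  have hhat : ∀ h : Fin 2 → ℤ, (∀ j, |h j| ≤ (K : ℤ) ^ 3) → ∑ j, h j * q j ≠ 0 →
      ‖hat (wm Ω wt Z) (∑ j, h j * q j)‖ ≤ Δ1 := by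
    intro h hh hne'
    rw [hZ, hat_wm1 h0]
    have h2 := hcount N (by omega) n t h hin htime htclose hh (by rw [hq] at hne'; exact hne')
    rw [← hE] at h2
    have h3 := hdec.char ((1 / 6 ^ E) * ((∑ j, h j * q j : ℤ) : ℝ)) N₀ (by
      rw [Int.cast_one, one_mul]
      have e1 : (1 / (6 : ℝ) ^ E) * ((∑ j, h j * q j : ℤ) : ℝ) =
          ((∑ j, h j * qq A N (n j) (t j) : ℤ) : ℝ) * (1 / 6 ^ E) := by
        rw [hq]; ring
      rw [e1]
      omega) (by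
      have : A' * N₀ ≤ A' * (N₀ + 1) := Nat.mul_le_mul_left _ (by omega)
      omega)
    have e1 : ∀ θ : ℝ, ∑ x ∈ Ω, (wt x : ℂ) * e (v x * θ) =
        ∑ x ∈ Ω, (wt x : ℂ) * Pool.Agent.H807R2.Dav.ee ((v x : ℝ) * θ) := by
      intro θ
      apply sum_congr rfl
      intro x _
      rw [e_ee]
    rw [e1]
    exact h3.trans hN₀.le
  have hterm : ∀ w ∈ V, |(wm Ω wt Z).real (I w) - Leb.real (I w)| ≤ D2 := by
    intro w hw
    rw [hV, mem_filter, Fintype.mem_piFinset] at hw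
    have key := Pool.Agent.Y933.KD.test hK0 (wm Ω wt Z) Leb hat_Leb q hq0 Δ1 hhat hΔ10.le
      (fun j => (w j : ℝ) / 6 ^ M) (fun j => ((w j : ℝ) + 1) / 6 ^ M) (fun j => by positivity)
      (fun j => by
        rw [div_le_one h6M]
        have := mem_range.1 (hw.1 j)
        exact_mod_cast this)
    rw [integral_indQ, integral_indQ] at key
    exact key.trans hΔD
  refine (sum_le_sum hterm).trans ?_
  rw [sum_const, nsmul_eq_mul]
  calc (V.card : ℝ) * D2 ≤ CV * D2 := by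
        rw [hCV]
        gcongr
    _ = Δ := by
        rw [hD2]
        field_simp

end Pool.Agent.K3h54.RD
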