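import Pool.Agent.R501.MT7
import Pool.Agent.Y933.KH.Far

/-!
# The automaton of multiplication by `3 / 2`: frequencies at many places far from the integers

For two cells of the light cone which are close to each other and a time which is not small, the
frequencies which belong to the two cells are far from the integers at many of the `N` places.
-/

set_option autoImplicit false

namespace Pool.Agent.K3h54.RD

open Finset Real
open Pool.Agent.Y933.KH (kap kap_nonneg kap_le_one EE qq qq_pos InCone cone_a cone_b qq_exp six_pow)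
open Pool.Agent.TH872.Mir (Far farCount)
open Pool.Agent.R501.MT (FarG far_count)

lemma farCount_sub (b F : ℕ) {k k' i₁ : ℕ} (h : i₁ + k' ≤ k) (θ : ℝ) :
    farCount b F k' ((b : ℝ) ^ i₁ * θ) ≤ farCount b F k θ := by
  classical
  unfold farCount
  refine card_le_card_of_injOn (fun j => i₁ + j) ?_ ?_
  · intro j hj
    simp only [coe_filter, mem_range, Set.mem_ofPred_eq] at hj ⊢
    refine ⟨by omega, ?_⟩
    have e : (F : ℝ) * ((b : ℝ) ^ (i₁ + j) * θ) = (F : ℝ) * ((b : ℝ) ^ j * ((b : ℝ) ^ i₁ * θ)) := by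
      rw [pow_add]; ring
    rw [e]
    exact hj.2
  · intro a _ b _ h
    simpa using h

/-- **the frequencies of two close cells are far from the integers at many places** -/
theorem cone_count (A : ℕ) (δ : ℝ) (hδ : 0 < δ) (hδ1 : δ ≤ 1) (F J K : ℕ) (hF : 1 ≤ F) (hJ : 1 ≤ J) :
    ∃ N0 : ℕ, ∀ N : ℕ, N0 ≤ N → ∀ (n : Fin 2 → ℕ) (t : Fin 2 → ℤ) (h : Fin 2 → ℤ),
      (∀ j, InCone A N δ (n j) (t j)) → (∀ j, δ * N ≤ n j) →
      (∀ j l, (t j : ℝ) - t l ≤ δ / 8 * N) →
      (∀ j, |h j| ≤ (K : ℤ) ^ 3) → ∑ j, h j * qq A N (n j) (t j) ≠ 0 →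
      J ≤ farCount 6 F N (((∑ j, h j * qq A N (n j) (t j) : ℤ) : ℝ) * (1 / 6 ^ EE A N)) := by
  have h6 : (0 : ℝ) < log 6 := Real.log_pos (by norm_num)
  have h2 : (0 : ℝ) < log 2 := Real.log_pos (by norm_num)
  have h64 : log 6 ≤ 3 * log 2 := by
    rw [show (3 : ℝ) * log 2 = log (2 ^ 3) by rw [Real.log_pow]; norm_num]
    exact Real.log_le_log (by norm_num) (by norm_num)
  have hJR : (1 : ℝ) ≤ J := by exact_mod_cast hJ
  have hFR : (1 : ℝ) ≤ F := by exact_mod_cast hF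
  obtain ⟨μ, hμ⟩ : ∃ μ : ℝ, μ = log 6 / J * (δ / 8) := ⟨_, rfl⟩
  have hμ0 : 0 < μ := by rw [hμ]; positivity
  have hμ1 : μ ≤ δ / 8 * log 6 := by
    rw [hμ]
    have : log 6 / J ≤ log 6 := div_le_self h6.le hJR
    nlinarith
  obtain ⟨η, hη, n0, hfin⟩ := Pool.Agent.TH932.S2.Pw.fin (p := 3) (q := 2) (by norm_num)
    (by norm_num) (by rw [Int.isCoprime_iff_gcd_eq_one]; decide) 2 (4 * A + 8) μ hμ0
  have hlim : Filter.Tendsto (fun k : ℕ => exp (η * k)) Filter.atTop Filter.atTop := by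
    apply Real.tendsto_exp_atTop.comp
    exact Filter.Tendsto.const_mul_atTop hη tendsto_natCast_atTop_atTop
  obtain ⟨n1, hn1⟩ := Filter.eventually_atTop.1 (hlim.eventually_ge_atTop ((F : ℝ) * (K : ℝ) ^ 3))
  obtain ⟨n2, hn2⟩ := exists_nat_ge (16 * (J + 1) / δ : ℝ)
  refine ⟨n0 + n1 + n2 + 1, fun N hN n t h hcone hn ht hh hne => ?_⟩
  have hNn2 : 16 * (J + 1) ≤ δ * N := by
    have h3 : (n2 : ℝ) ≤ N := by exact_mod_cast (by omega : n2 ≤ N)
    have h4 := hn2.trans h3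
    rw [div_le_iff₀ hδ] at h4
    linarith
  have hNR : (0 : ℝ) < N := by exact_mod_cast (by omega : 0 < N)
  have hA0 : (0 : ℝ) ≤ A := Nat.cast_nonneg A
  -- the window of places
  obtain ⟨i₁, hi₁⟩ : ∃ i₁ : ℕ, i₁ = max ⌈-(t 0 : ℝ) - n 0 * kap⌉₊ ⌈-(t 1 : ℝ) - n 1 * kap⌉₊ := ⟨_, rfl⟩
  have hlo : ∀ j, -(t j : ℝ) - n j * kap ≤ i₁ := by
    intro j
    have h3 : (⌈-(t j : ℝ) - n j * kap⌉₊ : ℝ) ≤ i₁ := by
      rw [hi₁]
      fin_cases j
      · exact_mod_cast le_max_left _ _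
      · exact_mod_cast le_max_right _ _
    exact (Nat.le_ceil _).trans h3
  have hup : ((i₁ : ℝ) ≤ 1) ∨ ∃ l, (i₁ : ℝ) ≤ -(t l : ℝ) - n l * kap + 1 := by
    have h3 : ∃ l, i₁ = ⌈-(t l : ℝ) - n l * kap⌉₊ := by
      rcases le_total ⌈-(t 0 : ℝ) - n 0 * kap⌉₊ ⌈-(t 1 : ℝ) - n 1 * kap⌉₊ with h4 | h4
      · exact ⟨1, by rw [hi₁, max_eq_right h4]⟩
      · exact ⟨0, by rw [hi₁, max_eq_left h4]⟩
    obtain ⟨l, hl⟩ := h3
    rcases le_or_gt 0 (-(t l : ℝ) - n l * kap) with h4 | h4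
    · right
      refine ⟨l, ?_⟩
      rw [hl]
      exact (Nat.ceil_lt_add_one h4).le
    · left
      rw [hl, Nat.ceil_eq_zero.2 h4.le]
      norm_num
  obtain ⟨k', hk'⟩ : ∃ k' : ℕ, k' = ⌊δ / 4 * N⌋₊ := ⟨_, rfl⟩
  have hk1 : (k' : ℝ) ≤ δ / 4 * N := by rw [hk']; exact Nat.floor_le (by positivity)
  have hk2 : δ / 8 * N ≤ k' := by
    have h3 := (Nat.lt_floor_add_one (δ / 4 * (N : ℝ))).le
    rw [← hk'] at h3
    linarith
  have hδN : δ * N ≤ N := by nlinarith
  have hi1N : (i₁ : ℝ) + k' ≤ N := by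
    rcases hup with h3 | ⟨l, h3⟩
    · linarith
    · obtain ⟨_, h4, _⟩ := hcone l
      linarith
  have hi1N' : i₁ + k' ≤ N := by exact_mod_cast hi1N
  have hkap := kap_nonneg
  have hright : ∀ j, (t j : ℝ) + i₁ + k' - n j ≤ -(δ / 2 * N) := by
    intro j
    obtain ⟨_, _, h5⟩ := hcone j
    rcases hup with h3 | ⟨l, h3⟩
    · linarith
    · have h6 := ht j l
      have h7 := hn j
      have h8 : 0 ≤ (n l : ℝ) * kap := by positivity
      linarith
  refine le_trans ?_ (farCount_sub 6 F hi1N' _)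
  have hJk : J ≤ k' := by
    have : (J : ℝ) ≤ k' := by linarith
    exact_mod_cast this
  have hk0 : 0 < k' := by omega
  have hk0R : (0 : ℝ) < k' := by exact_mod_cast hk0
  have e0 : log (F : ℝ) / k' * k' = log F := by field_simp
  refine far_count 6 F J (by norm_num) hF hJ (δ := log 6 / J) (by norm_num) k' hJk
    (η := log F / k') (by rw [e0, Real.exp_log (by linarith)]) _ ?_
  intro i₀ q' P hi₀ hq' hq'F
  rw [e0, Real.exp_log (by linarith)] at hq'F
  have hi₀' : i₀ ≤ k' := by exact_mod_cast hi₀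
  by_contra hcon
  push Not at hcon
  obtain ⟨E, hE⟩ : ∃ E : ℕ, E = EE A N := ⟨_, rfl⟩
  have hER : (E : ℝ) = (2 * A + 3) * N := by rw [hE]; unfold EE; push_cast; ring
  obtain ⟨T0, hT0⟩ : ∃ T0 : ℤ, T0 = ∑ j, h j * qq A N (n j) (t j) := ⟨_, rfl⟩
  rw [← hT0] at hcon hne
  rw [← hE] at hcon
  obtain ⟨x, hx⟩ : ∃ x : ℤ, x = q' * 6 ^ (i₁ + i₀) * T0 - P * 6 ^ E := ⟨_, rfl⟩
  have h6E : (0 : ℝ) < (6 : ℝ) ^ E := by positivity
  have hxs : |(x : ℝ)| ≤ exp (E * log 6 - μ * N) := by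
    have e1 : (x : ℝ) = ((q' : ℝ) * (((6 : ℕ) : ℝ) ^ i₀ * (((6 : ℕ) : ℝ) ^ i₁ * ((T0 : ℝ) * (1 / 6 ^ E)))) - P) * 6 ^ E := by
      rw [hx]
      push_cast
      rw [pow_add]
      field_simp
    rw [e1, abs_mul, abs_of_pos h6E]
    calc _ ≤ exp (-(log 6 / J * k')) * 6 ^ E := mul_le_mul_of_nonneg_right hcon h6E.le
      _ ≤ exp (-(μ * N)) * 6 ^ E := by
          apply mul_le_mul_of_nonneg_right _ h6E.le
          apply exp_le_exp.2
          have h3 : log 6 / J * (δ / 8 * N) ≤ log 6 / J * k' :=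
            mul_le_mul_of_nonneg_left hk2 (by positivity)
          rw [hμ]
          linarith
      _ = exp (E * log 6 - μ * N) := by
          rw [six_pow, ← exp_add]
          congr 1
          ring
  have key := hfin N (by omega) (fun j => (t j + n j + E).toNat + (i₁ + i₀))
    (fun j => (t j - n j + E).toNat + (i₁ + i₀)) (fun j => q' * h j) x E E ?_ ?_ ?_ ?_ ?_ ?_
  · apply hne
    have e1 : ∑ j, (q' * h j) * (((3 : ℕ) : ℤ) ^ ((t j + n j + E).toNat + (i₁ + i₀)) *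
        ((2 : ℕ) : ℤ) ^ ((t j - n j + E).toNat + (i₁ + i₀))) = q' * 6 ^ (i₁ + i₀) * T0 := by
      rw [hT0, mul_sum]
      refine sum_congr rfl fun j _ => ?_
      unfold qq
      rw [← hE]
      push_cast
      have e6 : (6 : ℤ) ^ (i₁ + i₀) = 3 ^ (i₁ + i₀) * 2 ^ (i₁ + i₀) := by
        rw [← mul_pow]; norm_num
      rw [e6, pow_add 3 ((t j + n j + E).toNat), pow_add 2 ((t j - n j + E).toNat)]
      ring
    rw [e1] at key
    have h3 : (q' * 6 ^ (i₁ + i₀) : ℤ) ≠ 0 := mul_ne_zero hq' (by positivity)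
    exact (mul_eq_zero.1 key).resolve_left h3
  · intro j
    have c1 := cone_a hδ (hcone j)
    have c2 := cone_b hδ (hcone j)
    rw [← hE] at c1 c2
    obtain ⟨d1, d2, d3⟩ := hcone j
    have d4 : (n j : ℝ) ≤ A * N := by exact_mod_cast d1
    have d5 : 0 ≤ δ * N := by positivity
    have e1 : (((t j + n j + E).toNat : ℕ) : ℝ) = t j + n j + E := by
      have : (((t j + n j + E).toNat : ℕ) : ℤ) = t j + n j + E := Int.toNat_of_nonneg c1
      exact_mod_cast this
    have e2 : (((t j - n j + E).toNat : ℕ) : ℝ) = t j - n j + E := by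
      have : (((t j - n j + E).toNat : ℕ) : ℤ) = t j - n j + E := Int.toNat_of_nonneg c2
      exact_mod_cast this
    have e3 : ((i₁ + i₀ : ℕ) : ℝ) ≤ N := by
      exact_mod_cast (by omega : i₁ + i₀ ≤ N)
    have hn0 : (0 : ℝ) ≤ n j := Nat.cast_nonneg _
    refine ⟨?_, ?_, ?_⟩
    · push_cast at e3 ⊢
      rw [e1, hER]
      nlinarith
    · push_cast at e3 ⊢
      rw [e2, hER]
      nlinarith
    · push_cast
      rw [abs_mul]
      have h3 : |(h j : ℝ)| ≤ (K : ℝ) ^ 3 := by exact_mod_cast hh j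
      refine le_trans (mul_le_mul hq'F h3 (abs_nonneg _) (by linarith)) ?_
      exact hn1 N (by omega)
  · rw [hER]
    nlinarith
  · rw [hER]
    nlinarith
  · refine ⟨P, ?_⟩
    have e1 : ∑ j, (q' * h j) * (((3 : ℕ) : ℤ) ^ ((t j + n j + E).toNat + (i₁ + i₀)) *
        ((2 : ℕ) : ℤ) ^ ((t j - n j + E).toNat + (i₁ + i₀))) = q' * 6 ^ (i₁ + i₀) * T0 := by
      rw [hT0, mul_sum]
      refine sum_congr rfl fun j _ => ?_
      unfold qq
      rw [← hE]
      push_cast
      have e6 : (6 : ℤ) ^ (i₁ + i₀) = 3 ^ (i₁ + i₀) * 2 ^ (i₁ + i₀) := by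
        rw [← mul_pow]; norm_num
      rw [e6, pow_add 3 ((t j + n j + E).toNat), pow_add 2 ((t j - n j + E).toNat)]
      ring
    rw [e1, hx]
    push_cast
    rw [← mul_pow]
    norm_num
    ring
  · push_cast
    rw [← mul_pow, show (3 : ℝ) * 2 = 6 by norm_num, six_pow]
    calc |(x : ℝ)| * exp (μ * N) ≤ exp (E * log 6 - μ * N) * exp (μ * N) := by gcongr
      _ = exp (E * log 6) := by
          rw [← exp_add]
          congr 1
          ring
  · intro j _
    constructor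
    · have e1 : ((3 : ℕ) : ℝ) ^ ((t j + n j + E).toNat + (i₁ + i₀)) *
          ((2 : ℕ) : ℝ) ^ ((t j - n j + E).toNat + (i₁ + i₀)) =
          ((qq A N (n j) (t j) : ℤ) : ℝ) * 6 ^ (i₁ + i₀) := by
        unfold qq
        rw [← hE]
        push_cast
        have e6 : (6 : ℝ) ^ (i₁ + i₀) = 3 ^ (i₁ + i₀) * 2 ^ (i₁ + i₀) := by
          rw [← mul_pow]; norm_num
        rw [e6, pow_add 3 ((t j + n j + E).toNat), pow_add 2 ((t j - n j + E).toNat)]
        ring
      rw [e1, qq_exp hδ (hcone j), six_pow, ← exp_add, ← hE]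
      calc |(x : ℝ)| * exp (μ * N) ≤ exp (E * log 6 - μ * N) * exp (μ * N) := by gcongr
        _ = exp (E * log 6) := by
            rw [← exp_add]
            congr 1
            ring
        _ ≤ _ := by
            apply exp_le_exp.2
            have h3 := hlo j
            push_cast
            have h4 : 0 ≤ ((t j : ℝ) + n j * kap + (i₁ + i₀)) * log 6 := by
              apply mul_nonneg _ h6.le
              have : (0 : ℝ) ≤ i₀ := Nat.cast_nonneg _
              linarith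
            nlinarith
    · have c2 := cone_b hδ (hcone j)
      rw [← hE] at c2
      have e2 : (((t j - n j + E).toNat : ℕ) : ℝ) = t j - n j + E := by
        have : (((t j - n j + E).toNat : ℕ) : ℤ) = t j - n j + E := Int.toNat_of_nonneg c2
        exact_mod_cast this
      push_cast
      rw [e2]
      have h3 := hright j
      have h4 : (i₀ : ℝ) ≤ k' := by exact_mod_cast hi₀'
      have h5 : ((t j : ℝ) - n j + E + (i₁ + i₀)) * log 2 ≤ (E - δ / 2 * N) * log 2 := by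
        apply mul_le_mul_of_nonneg_right _ h2.le
        linarith
      have h6' : μ * N ≤ δ / 2 * N * log 2 := by
        have h7 : μ ≤ δ / 8 * (3 * log 2) := by
          have : 0 < δ / 8 := by positivity
          nlinarith
        have h8 : μ ≤ δ / 2 * log 2 := by nlinarith
        nlinarith
      linarith

end Pool.Agent.K3h54.RD
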