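import Pool.Agent.K3h54.RD.Thin
import Pool.Agent.R318.ST.Dig

/-!
# Thin families of configurations: independent cells, and rearrangements
-/

set_option autoImplicit false

namespace Pool.Agent.K3h54.RD

open Finset MeasureTheory Real
open Pool.Agent.H429R2.Auto
open Pool.Agent.Y933.KH
open Pool.Agent.R459.Eq (Decays perm_decays)
open Pool.Agent.TH872.An (GG GG_pos Spread V)
open Pool.Agent.R318.ST (arrays wt dval Dist dig_decays)

/-- the value of a word, the first letter being the most significant digit -/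
def vw {N : ℕ} (v : Fin N → Fin 6) : ℕ := ∑ i : Fin N, (v (Fin.rev i) : ℕ) * 6 ^ (i : ℕ)

lemma rd_put (y : Conf) (s : ℤ) {N : ℕ} (v : Fin N → Fin 6) : rd (s - 1) N (put y s v) = vw v := by
  unfold rd vw
  rw [Finset.sum_range]
  refine sum_congr rfl fun r _ => ?_
  have hr := r.2
  congr 2
  unfold put
  rw [dif_pos ⟨by omega, by omega⟩]
  congr 1
  apply Fin.ext
  rw [Fin.val_rev]
  simp only
  omega

lemma vw_lt {N : ℕ} (v : Fin N → Fin 6) : vw v < 6 ^ N := by
  rw [← rd_put (fun _ => 0) 0 v]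
  exact rd_lt _ _ _

lemma putW_vw (y : Conf) (s : ℤ) {N : ℕ} (v : Fin N → Fin 6) : putW y s N (vw v) = put y s v := by
  rw [← rd_put y s v]
  funext i
  unfold putW
  split_ifs with h
  · have h2 := (agree_wr (s - 1) N _ (rd_lt (s - 1) N (put y s v)) (put y s v)).2 rfl i
      (by omega) (by omega)
    exact h2.symm
  · unfold put
    rw [dif_neg h]

lemma transfer {b F A k : ℕ} {γ : ℝ} {κ : ℤ} {ι ι' : Type} {Ω : Finset ι} {w : ι → ℝ} {v : ι → ℤ}
    {Ω' : Finset ι'} {w' : ι' → ℝ} {v' : ι' → ℤ} (h : Decays b F A k γ κ Ω w v) (e : ι' → ι)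
    (he : ∀ x ∈ Ω', e x ∈ Ω) (hinj : Set.InjOn e Ω') (hsurj : Set.SurjOn e Ω' Ω)
    (hw : ∀ x ∈ Ω', w' x = w (e x)) (hv : ∀ x ∈ Ω', v' x = v (e x)) :
    Decays b F A k γ κ Ω' w' v' := by
  refine ⟨fun x hx => ?_, ?_, fun θ N h1 h2 => ?_⟩
  · rw [hw x hx]
    exact h.nonneg _ (he x hx)
  · rw [← h.sum]
    exact sum_nbij e he hinj hsurj hw
  · have h3 := h.char θ N h1 h2
    have h4 : ∑ x ∈ Ω', (w' x : ℂ) * Pool.Agent.H807R2.Dav.ee ((v' x : ℝ) * θ) =
        ∑ x ∈ Ω, (w x : ℂ) * Pool.Agent.H807R2.Dav.ee ((v x : ℝ) * θ) :=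
      sum_nbij e he hinj hsurj fun x hx => by rw [hw x hx, hv x hx]
    rw [h4]
    exact h3

open Classical in
/-- **independent cells** -/
theorem indep (A D : ℕ) (δ ε η : ℝ) (hδ : 0 < δ) (hε : 0 < ε) (hη : 0 < η) : ∃ N0 : ℕ,
    ∀ N : ℕ, N0 ≤ N → ∀ (y : Conf) (s : ℤ) (a : ℕ) (b : ℤ), a ≤ D → |b| ≤ D → (a ≠ 0 ∨ b ≠ 0) →
    ∀ (n : ℕ) (i : ℤ) (p : Fin N → Fin 6 → ℝ), (∀ r c, 0 ≤ p r c) → (∀ r, ∑ c, p r c = 1) →
    (∀ r c, p r c ≤ 1 - η) →
    (∑ v : Fin N → Fin 6, if ¬ GoodL A D δ ε N s n i a b (put y s v) then ∏ r, p r (v r) else 0) ≤ ε := by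
  have hη1 : 0 < min η 1 := lt_min hη one_pos
  obtain ⟨γ, hγ0, hγ1, hdig⟩ := dig_decays 6 (by norm_num) (min η 1) hη1 (min_le_right _ _)
  obtain ⟨N0, hthin⟩ := thin A D δ ε hδ hε (GG 6) 1 (GG_pos 6 (by norm_num)) γ hγ0 hγ1
  refine ⟨N0, fun N hN y s a b ha hb hab n i p hp0 hp1 hpη => ?_⟩
  obtain ⟨u, hu⟩ : ∃ u : ℕ → ℕ → ℝ, u = fun i c => if h : i < N ∧ c < 6 then
    p (Fin.rev ⟨i, h.1⟩) ⟨c, h.2⟩ else 0 := ⟨_, rfl⟩
  have hu' : ∀ (i : Fin N) (c : Fin 6), u i c = p (Fin.rev i) c := by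
    intro i c
    rw [hu]
    simp only [i.2, c.2, and_self, dif_pos]
  have hdist : Dist 6 N (min η 1) u := by
    refine ⟨fun i c => ?_, fun i hi => ?_, fun i hi => ?_⟩
    · rw [hu]
      simp only
      split_ifs
      · exact hp0 _ _
      · exact le_rfl
    · rw [Finset.sum_range, ← hp1 (Fin.rev ⟨i, hi⟩)]
      exact sum_congr rfl fun c _ => hu' ⟨i, hi⟩ c
    · rw [Finset.sum_range]
      have h1 : ∀ c : Fin 6, u i c ^ 2 ≤ (1 - min η 1) * u i c := by
        intro c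
        rw [hu' ⟨i, hi⟩ c, sq]
        apply mul_le_mul_of_nonneg_right _ (hp0 _ _)
        have := hpη (Fin.rev ⟨i, hi⟩) c
        have h2 : min η 1 ≤ η := min_le_left _ _
        linarith
      calc ∑ c : Fin 6, u i c ^ 2 ≤ ∑ c : Fin 6, (1 - min η 1) * u i c := sum_le_sum fun c _ => h1 c
        _ = 1 - min η 1 := by
            rw [← mul_sum]
            have h3 : ∑ c : Fin 6, u i c = 1 := by
              rw [← hp1 (Fin.rev ⟨i, hi⟩)]
              exact sum_congr rfl fun c _ => hu' ⟨i, hi⟩ c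
            rw [h3, mul_one]
  have h1 := hdig N u hdist 0 1
  have h2 : Decays 6 (GG 6) 1 N γ 1 (univ : Finset (Fin N → Fin 6)) (fun v => ∏ r, p r (v r))
      (fun v => ((vw v : ℕ) : ℤ)) := by
    refine transfer h1 (fun v i => ((v (Fin.rev i) : Fin 6) : ℕ)) (fun v _ => ?_) ?_ ?_ (fun v _ => ?_)
      (fun v _ => ?_)
    · unfold arrays
      rw [Fintype.mem_piFinset]
      intro i
      rw [mem_range]
      exact (v (Fin.rev i)).2
    · intro v _ v' _ h
      funext r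
      have h3 := congrFun h (Fin.rev r)
      simp only [Fin.rev_rev] at h3
      exact Fin.ext h3
    · intro g hg
      rw [mem_coe] at hg
      unfold arrays at hg
      rw [Fintype.mem_piFinset] at hg
      refine ⟨fun r => ⟨g (Fin.rev r), mem_range.1 (hg _)⟩, mem_coe.2 (mem_univ _), ?_⟩
      funext i
      simp only [Fin.rev_rev]
    · unfold wt
      rw [← Equiv.prod_comp Fin.revPerm]
      refine prod_congr rfl fun i _ => ?_
      rw [hu']
      rfl
    · unfold vw dval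
      rw [zero_add, one_mul]
  have h3 := hthin N hN y s a b ha hb hab n i _ _ _ _ h2 (fun v _ => ⟨by positivity, by
    have := vw_lt v
    exact_mod_cast this⟩)
  refine le_trans (le_of_eq ?_) h3
  refine sum_congr rfl fun v _ => ?_
  rw [Int.toNat_natCast, putW_vw]

open Classical in
/-- **rearrangements** -/
theorem perms (A D : ℕ) (δ ε η : ℝ) (hδ : 0 < δ) (hε : 0 < ε) (hη : 0 < η) : ∃ N0 : ℕ,
    ∀ N : ℕ, N0 ≤ N → ∀ (y : Conf) (s : ℤ) (a : ℕ) (b : ℤ), a ≤ D → |b| ≤ D → (a ≠ 0 ∨ b ≠ 0) →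
    ∀ (n : ℕ) (i : ℤ) (d : Fin N → Fin 6),
    (∀ c, ((univ.filter fun r => d r = c).card : ℝ) ≤ (1 - η) * N) →
    ((univ.filter fun σ : Equiv.Perm (Fin N) =>
      ¬ GoodL A D δ ε N s n i a b (put y s fun r => d (σ r))).card : ℝ) ≤ ε * N.factorial := by
  have hη1 : 0 < min η 1 := lt_min hη one_pos
  obtain ⟨A', γ, hγ0, hγ1, hperm⟩ := perm_decays 6 (by norm_num) (min η 1) hη1 (min_le_right _ _)
  obtain ⟨N0, hthin⟩ := thin A D δ ε hδ hε (GG 6) A' (GG_pos 6 (by norm_num)) γ hγ0 hγ1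
  refine ⟨N0, fun N hN y s a b ha hb hab n i d hd => ?_⟩
  obtain ⟨d', hd'⟩ : ∃ d' : Fin N → ℕ, d' = fun r => ((d r : Fin 6) : ℕ) := ⟨_, rfl⟩
  have hle : (1 - η) * N ≤ (1 - min η 1) * N := by
    apply mul_le_mul_of_nonneg_right _ (Nat.cast_nonneg _)
    have : min η 1 ≤ η := min_le_left _ _
    linarith
  have hspread : Spread 6 N (min η 1) d' := by
    refine ⟨fun i => by rw [hd']; exact (d i).2, fun c => ?_⟩
    by_cases hc : c < 6
    · have h1 := hd ⟨c, hc⟩
      have h2 : (univ.filter fun i => d' i = c) = univ.filter fun r => d r = ⟨c, hc⟩ := by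
        apply filter_congr
        intro r _
        rw [hd']
        constructor
        · intro h
          exact Fin.ext h
        · intro h
          show ((d r : Fin 6) : ℕ) = c
          rw [h]
      rw [h2]
      exact h1.trans hle
    · have h2 : (univ.filter fun i => d' i = c) = ∅ := by
        apply filter_eq_empty_iff.2
        intro r _ h
        apply hc
        rw [← h, hd']
        exact (d r).2
      rw [h2, card_empty, Nat.cast_zero]
      apply mul_nonneg _ (Nat.cast_nonneg _)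
      have : min η 1 ≤ 1 := min_le_right _ _
      linarith
  have h1 := hperm N d' hspread 0 1
  have h2 : Decays 6 (GG 6) A' N γ 1 (univ : Finset (Equiv.Perm (Fin N)))
      (fun _ => 1 / (N.factorial : ℝ)) (fun σ => ((vw (fun r => d (σ r)) : ℕ) : ℤ)) := by
    refine transfer h1 (fun σ => σ * Fin.revPerm) (fun _ _ => mem_univ _) ?_ ?_ (fun _ _ => rfl)
      (fun σ _ => ?_)
    · intro σ _ σ' _ h
      exact mul_right_cancel h
    · intro σ _
      refine ⟨σ * Fin.revPerm⁻¹, mem_coe.2 (mem_univ _), ?_⟩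
      simp only [inv_mul_cancel_right]
    · unfold vw V
      rw [zero_add, one_mul, hd']
      rfl
  have h3 := hthin N hN y s a b ha hb hab n i _ _ _ _ h2 (fun σ _ => ⟨by positivity, by
    have := vw_lt (fun r => d (σ r))
    exact_mod_cast this⟩)
  have hfac : (0 : ℝ) < (N.factorial : ℝ) := by exact_mod_cast N.factorial_pos
  have h4 : ((univ.filter fun σ : Equiv.Perm (Fin N) =>
      ¬ GoodL A D δ ε N s n i a b (put y s fun r => d (σ r))).card : ℝ) * (1 / (N.factorial : ℝ)) ≤ ε := by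
    refine le_trans (le_of_eq ?_) h3
    rw [← nsmul_eq_mul, ← sum_const, sum_filter]
    refine sum_congr rfl fun σ _ => ?_
    rw [Int.toNat_natCast, putW_vw]
  rwa [mul_one_div, div_le_iff₀ hfac] at h4

end Pool.Agent.K3h54.RD
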