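import Pool.Agent.K3h54.RD.Box
import Pool.Agent.Y933.KH.BLD

/-!
# The second moment of the number of occurrences of a pattern along a block of a line
-/

set_option autoImplicit false

namespace Pool.Agent.K3h54.RD

open Finset MeasureTheory Real
open Pool.Agent.H429R2.Auto
open Pool.Agent.Y933.KH
open Pool.Agent.R459.Eq (Decays)
open Pool.Agent.R501.MT (wm wm_prob wm_int)

open Classical in
lemma wm_realC {ι : Type} {Ω : Finset ι} {w : ι → ℝ} (h0 : ∀ i ∈ Ω, 0 ≤ w i) (x : ι → Conf)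
    {U : Set Conf} (hU : MeasurableSet U) :
    (wm Ω w x).real U = ∑ i ∈ Ω, if x i ∈ U then w i else 0 := by
  rw [← integral_indicator_one hU, wm_int h0]
  refine sum_congr rfl fun i _ => ?_
  by_cases h : x i ∈ U
  · rw [Set.indicator_of_mem h, if_pos h]
    simp
  · rw [Set.indicator_of_notMem h, if_neg h]
    simp

lemma meas_dep {s : ℤ} {T : ℕ} {B : Set Conf} (hB : DepOn s T B) : MeasurableSet B := by
  have h : B = (rd s T) ⁻¹' {W | wr s T W ∈ B} := by
    ext x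
    have h2 := (agree_wr s T (rd s T x) (rd_lt s T x) x).2 rfl
    exact hB x _ h2
  rw [h]
  exact measurable_rd s T (MeasurableSet.of_discrete)

lemma occ_dep {D : ℕ} (w : Fin D → Fin D → Fin 6) (n : ℕ) (i : ℤ) :
    DepOn (i - n - D - 1) (2 * n + 3 * D + 2) {x | Occ w n i x} := by
  intro x x' h
  have h1 : ∀ a b : Fin D, F^[n + a] x (i + b) = F^[n + a] x' (i + b) := by
    intro a b
    have ha := a.2
    have hb := b.2
    refine iter_local (n + a) (a := i + b) (b := i + b) (fun l hl1 hl2 => ?_) _ le_rfl le_rfl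
    push_cast at hl1 hl2
    exact h l (by omega) (by push_cast; omega)
  simp only [Set.mem_ofPred_eq]
  unfold Occ
  simp only [h1]

lemma meas_occ {D : ℕ} (w : Fin D → Fin D → Fin 6) (n : ℕ) (i : ℤ) :
    MeasurableSet {x | Occ w n i x} := meas_dep (occ_dep w n i)

/-- the second moment in terms of pairs -/
lemma sq_int (P : Measure Conf) [IsProbabilityMeasure P] (O : ℕ → Set Conf)
    (hO : ∀ t, MeasurableSet (O t)) (f : ℝ) (G : ℕ) :
    ∫ x, (∑ t ∈ range G, ((O t).indicator 1 x - f)) ^ 2 ∂P =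
      ∑ t ∈ range G, ∑ t' ∈ range G,
        (P.real (O t ∩ O t') - f * P.real (O t) - f * P.real (O t') + f ^ 2) := by
  have h1 : ∀ x, (∑ t ∈ range G, ((O t).indicator (1 : Conf → ℝ) x - f)) ^ 2 =
      ∑ t ∈ range G, ∑ t' ∈ range G, ((O t ∩ O t').indicator (1 : Conf → ℝ) x -
        f * (O t).indicator (1 : Conf → ℝ) x - f * (O t').indicator (1 : Conf → ℝ) x + f ^ 2) := by
    intro x
    rw [sq, sum_mul_sum]
    refine sum_congr rfl fun t _ => sum_congr rfl fun t' _ => ?_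
    have h2 : (O t ∩ O t').indicator (1 : Conf → ℝ) x =
        (O t).indicator (1 : Conf → ℝ) x * (O t').indicator (1 : Conf → ℝ) x := by
      by_cases h3 : x ∈ O t
      · by_cases h4 : x ∈ O t'
        · rw [Set.indicator_of_mem h3, Set.indicator_of_mem h4,
            Set.indicator_of_mem (show x ∈ O t ∩ O t' from ⟨h3, h4⟩)]
          simp
        · rw [Set.indicator_of_notMem h4, Set.indicator_of_notMem (fun h => h4 h.2), mul_zero]
      · rw [Set.indicator_of_notMem h3, Set.indicator_of_notMem (fun h => h3 h.1), zero_mul]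
    rw [h2]
    ring
  have hint : ∀ U : Set Conf, MeasurableSet U → Integrable (U.indicator (1 : Conf → ℝ)) P := by
    intro U hU
    exact (integrable_const (1 : ℝ)).indicator hU
  have hint2 : ∀ t t' : ℕ, Integrable (fun x => (O t ∩ O t').indicator (1 : Conf → ℝ) x -
        f * (O t).indicator (1 : Conf → ℝ) x - f * (O t').indicator (1 : Conf → ℝ) x + f ^ 2) P := by
    intro t t'
    exact (((hint _ ((hO t).inter (hO t'))).sub ((hint _ (hO t)).const_mul f)).sub
      ((hint _ (hO t')).const_mul f)).add (integrable_const _)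
  simp only [h1]
  rw [integral_finsetSum _ fun t _ => integrable_finsetSum _ fun t' _ => hint2 t t']
  refine sum_congr rfl fun t _ => ?_
  rw [integral_finsetSum _ fun t' _ => hint2 t t']
  refine sum_congr rfl fun t' _ => ?_
  have i1 : Integrable (fun x => (O t ∩ O t').indicator (1 : Conf → ℝ) x) P :=
    hint _ ((hO t).inter (hO t'))
  have i2 : Integrable (fun x => f * (O t).indicator (1 : Conf → ℝ) x) P := (hint _ (hO t)).const_mul f
  have i3 : Integrable (fun x => f * (O t').indicator (1 : Conf → ℝ) x) P :=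
    (hint _ (hO t')).const_mul f
  have i12 : Integrable (fun x => (O t ∩ O t').indicator (1 : Conf → ℝ) x -
      f * (O t).indicator (1 : Conf → ℝ) x) P := i1.sub i2
  have i123 : Integrable (fun x => (O t ∩ O t').indicator (1 : Conf → ℝ) x -
      f * (O t).indicator (1 : Conf → ℝ) x - f * (O t').indicator (1 : Conf → ℝ) x) P := i12.sub i3
  rw [integral_add i123 (integrable_const _), integral_sub i12 i3, integral_sub i1 i2,
    integral_const_mul, integral_const_mul, integral_indicator_one ((hO t).inter (hO t')),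
    integral_indicator_one (hO t), integral_indicator_one (hO t'), integral_const]
  simp

open Classical in
/-- the count in terms of the indicator functions -/
lemma cnt_ind {D : ℕ} (w : Fin D → Fin D → Fin 6) (n : ℕ) (i : ℤ) (a : ℕ) (b : ℤ) (G : ℕ)
    (f : ℝ) (x : Conf) : (cnt w n i a b G x : ℝ) - G * f =
      ∑ t ∈ range G, (({x | Occ w (n + t * a) (i + t * b) x}).indicator (1 : Conf → ℝ) x - f) := by
  unfold cnt
  rw [sum_sub_distrib, sum_const, card_range, nsmul_eq_mul, card_filter]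
  push_cast
  congr 1

open Classical in
/-- **one block** -/
theorem block (A D : ℕ) (δ : ℝ) (hδ : 0 < δ) (F A' : ℕ) (hF : 1 ≤ F) (γ : ℝ) (hγ0 : 0 < γ)
    (hγ1 : γ < 1) (ε₁ τ c0 : ℝ) (hε₁ : 0 < ε₁) (hτ : 0 < τ) (hc0 : 0 < c0)
    (hc : (D + 1) * c0 ≤ min δ 1 / 16) : ∃ (g N0 : ℕ), 1 ≤ g ∧ ∀ N : ℕ, N0 ≤ N →
    c0 / 2 * N ≤ (g * ⌊c0 * N / g⌋₊ : ℕ) ∧ ((g * ⌊c0 * N / g⌋₊ : ℕ) : ℝ) ≤ c0 * N ∧
    ∀ (y : Conf) (s : ℤ) (w : Fin D → Fin D → Fin 6) (a : ℕ) (b : ℤ), a ≤ D → |b| ≤ D →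
    (a ≠ 0 ∨ b ≠ 0) → ∀ (n : ℕ) (i : ℤ),
    (∀ t < g * ⌊c0 * N / g⌋₊, Inn A N δ s (n + t * a) (i + t * b)) →
    ∀ (ι : Type) (Ω : Finset ι) (wt : ι → ℝ) (v : ι → ℤ), Decays 6 F A' N γ 1 Ω wt v →
    (∀ x ∈ Ω, 0 ≤ v x ∧ v x < 6 ^ N) →
    (∑ x ∈ Ω, if ε₁ * (g * ⌊c0 * N / g⌋₊ : ℕ) < |(cnt w n i a b (g * ⌊c0 * N / g⌋₊)
      (putW y s N (v x).toNat) : ℝ) - (g * ⌊c0 * N / g⌋₊ : ℕ) * frq w| then wt x else 0) ≤ τ := by
  -- the constants
  obtain ⟨ε₂, hε₂, hε₂1, hε₂a⟩ : ∃ ε₂ : ℝ, 0 < ε₂ ∧ ε₂ ≤ 1 ∧ ε₂ ^ 2 ≤ τ * ε₁ ^ 2 / 4 := by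
    refine ⟨min 1 (√(τ * ε₁ ^ 2 / 4)), lt_min one_pos (Real.sqrt_pos.2 (by positivity)),
      min_le_left _ _, ?_⟩
    have h1 : min 1 (√(τ * ε₁ ^ 2 / 4)) ≤ √(τ * ε₁ ^ 2 / 4) := min_le_right _ _
    have h2 : (0 : ℝ) ≤ min 1 (√(τ * ε₁ ^ 2 / 4)) := le_min zero_le_one (Real.sqrt_nonneg _)
    calc (min 1 (√(τ * ε₁ ^ 2 / 4))) ^ 2 ≤ (√(τ * ε₁ ^ 2 / 4)) ^ 2 := by gcongr
      _ = _ := Real.sq_sqrt (by positivity)
  obtain ⟨g, hg, hld⟩ := bern_ld D ε₂ hε₂ hε₂1
  have hg0 : (0 : ℝ) < g := by exact_mod_cast hg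
  obtain ⟨Δ, hΔ, hΔa⟩ : ∃ Δ : ℝ, 0 < Δ ∧ 3 * Δ ≤ τ * ε₁ ^ 2 / 4 := ⟨τ * ε₁ ^ 2 / 12, by positivity, by
    linarith⟩
  obtain ⟨N1, hbox⟩ := box_two A D δ hδ F A' hF γ hγ0 hγ1 Δ hΔ
  have hlim : Filter.Tendsto (fun m : ℕ => 2 * g * exp (-(ε₂ ^ 2 / 16 * m))) Filter.atTop
      (nhds (2 * g * 0)) := by
    refine Filter.Tendsto.const_mul _ ?_
    refine Real.tendsto_exp_neg_atTop_nhds_zero.comp ?_
    exact Filter.Tendsto.const_mul_atTop (by positivity) tendsto_natCast_atTop_atTop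
  rw [mul_zero] at hlim
  obtain ⟨m1, hm1⟩ := Filter.eventually_atTop.1 (hlim.eventually_lt_const
    (by positivity : (0 : ℝ) < τ * ε₁ ^ 2 / 4))
  obtain ⟨N2, hN2⟩ := exists_nat_ge (g * (m1 + 2) / c0 : ℝ)
  refine ⟨g, N1 + N2 + 1, hg, fun N hN => ?_⟩
  have hNR : (0 : ℝ) < N := by exact_mod_cast (by omega : 0 < N)
  obtain ⟨m, hm⟩ : ∃ m : ℕ, m = ⌊c0 * N / g⌋₊ := ⟨_, rfl⟩
  obtain ⟨G, hG⟩ : ∃ G : ℕ, G = g * m := ⟨_, rfl⟩
  rw [← hm, ← hG]
  have hGR : (G : ℝ) = g * m := by rw [hG]; push_cast; ring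
  have hm2 : (m : ℝ) ≤ c0 * N / g := by rw [hm]; exact Nat.floor_le (by positivity)
  have hm3 : c0 * N / g < m + 1 := by rw [hm]; exact Nat.lt_floor_add_one _
  have hNN : g * (m1 + 2) ≤ c0 * N := by
    have h1 : (N2 : ℝ) ≤ N := by exact_mod_cast (by omega : N2 ≤ N)
    have h2 := hN2.trans h1
    rw [div_le_iff₀ hc0] at h2
    linarith
  have hmm : m1 + 1 ≤ m := by
    have h1 : ((m1 : ℝ) + 2) ≤ c0 * N / g := by rw [le_div_iff₀ hg0]; linarith
    have h2 : ((m1 : ℝ) + 1) < m := by linarith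
    have h3 : ((m1 + 1 : ℕ) : ℝ) < m := by push_cast; exact h2
    exact_mod_cast h3.le
  have hG1 : (G : ℝ) ≤ c0 * N := by
    rw [hGR]
    rw [le_div_iff₀ hg0] at hm2
    linarith
  have hG2 : c0 / 2 * N ≤ G := by
    rw [hGR]
    rw [div_lt_iff₀ hg0] at hm3
    have h1 : (1 : ℝ) ≤ m := by exact_mod_cast (by omega : 1 ≤ m)
    nlinarith
  refine ⟨hG2, hG1, ?_⟩
  intro y s w a b ha hb hab n i hin ι Ω wt v hdec hv
  have hGpos : (0 : ℝ) < G := by
    have h1 : (1 : ℝ) ≤ m := by exact_mod_cast (by omega : 1 ≤ m)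
    rw [hGR]
    positivity
  have h0 := hdec.nonneg
  have h1' := hdec.sum
  obtain ⟨X, hX⟩ : ∃ X : ι → Conf, X = fun x => putW y s N (v x).toNat := ⟨_, rfl⟩
  obtain ⟨f, hf⟩ : ∃ f : ℝ, f = frq w := ⟨_, rfl⟩
  have hf0 : 0 ≤ f := by rw [hf]; exact measureReal_nonneg
  have hf1 : f ≤ 1 := by rw [hf]; exact measureReal_le_one
  obtain ⟨O, hO⟩ : ∃ O : ℕ → Set Conf, O = fun t => {x | Occ w (n + t * a) (i + t * b) x} := ⟨_, rfl⟩
  have hOm : ∀ t, MeasurableSet (O t) := fun t => by rw [hO]; exact meas_occ _ _ _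
  have hprob : IsProbabilityMeasure (wm Ω wt X) := wm_prob h0 h1' X
  have hcI : ∀ x : Conf, (cnt w n i a b G x : ℝ) - G * f = ∑ t ∈ range G, ((O t).indicator (1 : Conf → ℝ) x - f) := by
    intro x
    rw [hO]
    exact cnt_ind w n i a b G f x
  -- two cells
  have hpair : ∀ t < G, ∀ t' < G, |(wm Ω wt X).real (O t ∩ O t') - bern.real (O t ∩ O t')| ≤ Δ := by
    intro t ht t' ht'
    have hb' := abs_le.1 hb
    have hclose : ∀ t₁ t₂ : ℕ, t₁ < G → t₂ < G → ((i + t₁ * b : ℤ) : ℝ) - ((i + t₂ * b : ℤ) : ℝ) ≤ min δ 1 / 16 * N := by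
      intro t₁ t₂ h₁ h₂
      have hD : |(b : ℝ)| ≤ D := by exact_mod_cast hb
      have e1 : ((i + t₁ * b : ℤ) : ℝ) - ((i + t₂ * b : ℤ) : ℝ) = ((t₁ : ℝ) - t₂) * b := by push_cast; ring
      have h3 : |(t₁ : ℝ) - t₂| ≤ G := by
        have h4 : (t₁ : ℝ) ≤ G := by exact_mod_cast h₁.le
        have h5 : (t₂ : ℝ) ≤ G := by exact_mod_cast h₂.le
        have h6 : (0 : ℝ) ≤ t₁ := Nat.cast_nonneg _
        have h7 : (0 : ℝ) ≤ t₂ := Nat.cast_nonneg _
        rw [abs_le]
        constructor <;> linarith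
      rw [e1]
      calc ((t₁ : ℝ) - t₂) * b ≤ |((t₁ : ℝ) - t₂) * b| := le_abs_self _
        _ = |(t₁ : ℝ) - t₂| * |(b : ℝ)| := abs_mul _ _
        _ ≤ G * D := by gcongr
        _ ≤ (c0 * N) * (D + 1) := by
            gcongr
            linarith
        _ = ((D + 1) * c0) * N := by ring
        _ ≤ min δ 1 / 16 * N := by gcongr
    have h2 := hbox N (by omega) y s (fun j => if j = 0 then n + t * a else n + t' * a)
      (fun j => if j = 0 then i + t * b else i + t' * b) (fun j => by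
        fin_cases j
        · exact hin t ht
        · exact hin t' ht') (fun j l => by
        fin_cases j <;> fin_cases l
        · exact hclose t t ht ht
        · exact hclose t t' ht ht'
        · exact hclose t' t ht' ht
        · exact hclose t' t' ht' ht') ι Ω wt v hdec hv {c | c 0 = w ∧ c 1 = w}
    have hset : {x : Conf | boxes D (fun j => if j = 0 then n + t * a else n + t' * a)
        (fun j => if j = 0 then i + t * b else i + t' * b) x ∈ {c : Fin 2 → Fin D → Fin D → Fin 6 |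
          c 0 = w ∧ c 1 = w}} = O t ∩ O t' := by
      rw [hO]
      ext x
      simp only [Set.mem_ofPred_eq, Set.mem_inter_iff]
      unfold boxes Occ
      constructor
      · rintro ⟨h3, h4⟩
        exact ⟨fun a' b' => by
          have := congrFun (congrFun h3 a') b'
          simpa using this, fun a' b' => by
          have := congrFun (congrFun h4 a') b'
          simpa using this⟩
      · rintro ⟨h3, h4⟩
        exact ⟨by funext a' b'; simpa using h3 a' b', by funext a' b'; simpa using h4 a' b'⟩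
    have hmem : ∀ z : Conf, (boxes D (fun j => if j = 0 then n + t * a else n + t' * a)
        (fun j => if j = 0 then i + t * b else i + t' * b) z ∈ {c : Fin 2 → Fin D → Fin D → Fin 6 |
          c 0 = w ∧ c 1 = w}) ↔ z ∈ O t ∩ O t' := by
      intro z
      rw [← hset]
      rfl
    rw [hset] at h2
    rw [wm_realC h0 X ((hOm t).inter (hOm t'))]
    refine le_trans (le_of_eq ?_) h2
    congr 2
    refine sum_congr rfl fun x _ => ?_
    have h4 := hmem (putW y s N (v x).toNat)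
    rw [hX]
    by_cases h5 : putW y s N (v x).toNat ∈ O t ∩ O t'
    · rw [if_pos h5, if_pos (h4.2 h5)]
    · rw [if_neg h5, if_neg (fun h => h5 (h4.1 h))]
  have hone : ∀ t < G, |(wm Ω wt X).real (O t) - bern.real (O t)| ≤ Δ := by
    intro t ht
    have := hpair t ht t ht
    rwa [Set.inter_self] at this
  -- the second moments
  have hsq : ∫ x, (∑ t ∈ range G, ((O t).indicator (1 : Conf → ℝ) x - f)) ^ 2 ∂(wm Ω wt X) ≤
      ∫ x, (∑ t ∈ range G, ((O t).indicator (1 : Conf → ℝ) x - f)) ^ 2 ∂bern + 3 * Δ * G ^ 2 := by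
    rw [sq_int (wm Ω wt X) O hOm f G, sq_int bern O hOm f G]
    have h2 : ∀ t ∈ range G, ∀ t' ∈ range G,
        ((wm Ω wt X).real (O t ∩ O t') - f * (wm Ω wt X).real (O t) - f * (wm Ω wt X).real (O t') + f ^ 2) ≤
        (bern.real (O t ∩ O t') - f * bern.real (O t) - f * bern.real (O t') + f ^ 2) + 3 * Δ := by
      intro t ht t' ht'
      have ht := mem_range.1 ht
      have ht' := mem_range.1 ht'
      have a1 := abs_le.1 (hpair t ht t' ht')
      have a2 := abs_le.1 (hone t ht)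
      have a3 := abs_le.1 (hone t' ht')
      nlinarith [a1.1, a1.2, a2.1, a2.2, a3.1, a3.2]
    calc _ ≤ ∑ t ∈ range G, ∑ t' ∈ range G, ((bern.real (O t ∩ O t') - f * bern.real (O t) -
          f * bern.real (O t') + f ^ 2) + 3 * Δ) :=
          sum_le_sum fun t ht => sum_le_sum fun t' ht' => h2 t ht t' ht'
      _ = _ := by
          simp only [sum_add_distrib, sum_const, card_range, nsmul_eq_mul]
          ring
  -- the Bernoulli measure
  have hmeasc : Measurable (fun x : Conf => (cnt w n i a b G x : ℝ) - G * f) := by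
    have h2 : (fun x : Conf => (cnt w n i a b G x : ℝ) - G * f) = fun x =>
        ∑ t ∈ range G, ((O t).indicator (1 : Conf → ℝ) x - f) := funext hcI
    rw [h2]
    exact Finset.measurable_sum _ fun t _ => ((measurable_one.indicator (hOm t)).sub_const f)
  obtain ⟨Bd, hBd⟩ : ∃ Bd : Set Conf, Bd = {x | ε₂ * (g * m) < |(cnt w n i a b (g * m) x : ℝ) - g * m * frq w|} := ⟨_, rfl⟩
  have hBdm : MeasurableSet Bd := by
    have h2 : Bd = {x | ε₂ * (g * m) < |(cnt w n i a b G x : ℝ) - G * f|} := by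
      rw [hBd, hG, hf]
      push_cast
      rfl
    rw [h2]
    exact measurableSet_lt measurable_const hmeasc.abs
  have hbsq : ∫ x, (∑ t ∈ range G, ((O t).indicator (1 : Conf → ℝ) x - f)) ^ 2 ∂bern ≤
      ε₂ ^ 2 * G ^ 2 + G ^ 2 * bern.real Bd := by
    have h2 : ∀ x, (∑ t ∈ range G, ((O t).indicator (1 : Conf → ℝ) x - f)) ^ 2 ≤
        ε₂ ^ 2 * G ^ 2 + G ^ 2 * Bd.indicator (1 : Conf → ℝ) x := by
      intro x
      rw [← hcI x]
      by_cases h3 : x ∈ Bd
      · rw [Set.indicator_of_mem h3, Pi.one_apply, mul_one]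
        have h4 : |(cnt w n i a b G x : ℝ) - G * f| ≤ G := by
          have h5 : (cnt w n i a b G x : ℝ) ≤ G := by
            have : cnt w n i a b G x ≤ G := by
              unfold cnt
              exact (card_filter_le _ _).trans (card_range G).le
            exact_mod_cast this
          have h6 : (0 : ℝ) ≤ cnt w n i a b G x := Nat.cast_nonneg _
          have h7 : (G : ℝ) * f ≤ G := by nlinarith
          have h8 : 0 ≤ (G : ℝ) * f := by positivity
          rw [abs_le]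
          constructor <;> linarith
        have h5 : ((cnt w n i a b G x : ℝ) - G * f) ^ 2 ≤ (G : ℝ) ^ 2 := by
          rw [← sq_abs]
          gcongr
        have : 0 ≤ ε₂ ^ 2 * (G : ℝ) ^ 2 := by positivity
        linarith
      · rw [Set.indicator_of_notMem h3, mul_zero, add_zero]
        rw [hBd] at h3
        simp only [Set.mem_ofPred_eq, not_lt] at h3
        have h4 : |(cnt w n i a b G x : ℝ) - G * f| ≤ ε₂ * G := by
          rw [hG, hf]
          push_cast
          exact h3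
        calc ((cnt w n i a b G x : ℝ) - G * f) ^ 2 = |(cnt w n i a b G x : ℝ) - G * f| ^ 2 := (sq_abs _).symm
          _ ≤ (ε₂ * G) ^ 2 := by gcongr
          _ = ε₂ ^ 2 * G ^ 2 := by ring
    have hbd : ∀ x, |(∑ t ∈ range G, ((O t).indicator (1 : Conf → ℝ) x - f)) ^ 2| ≤ ε₂ ^ 2 * G ^ 2 + G ^ 2 := by
      intro x
      rw [abs_of_nonneg (sq_nonneg _)]
      refine (h2 x).trans ?_
      have h3 : Bd.indicator (1 : Conf → ℝ) x ≤ 1 := Set.indicator_le_self' (fun _ _ => zero_le_one) x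
      have : 0 ≤ (G : ℝ) ^ 2 := by positivity
      nlinarith
    have hmf : Measurable (fun x => (∑ t ∈ range G, ((O t).indicator (1 : Conf → ℝ) x - f)) ^ 2) :=
      (Finset.measurable_sum _ fun t _ => ((measurable_one.indicator (hOm t)).sub_const f)).pow_const 2
    have hint : Integrable (fun x => (∑ t ∈ range G, ((O t).indicator (1 : Conf → ℝ) x - f)) ^ 2) bern :=
      Integrable.of_bound hmf.aestronglyMeasurable _ (Filter.Eventually.of_forall hbd)
    have hint2 : Integrable (fun x => G ^ 2 * Bd.indicator (1 : Conf → ℝ) x) bern :=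
      ((integrable_const (1 : ℝ)).indicator hBdm).const_mul _
    calc _ ≤ ∫ x, (ε₂ ^ 2 * G ^ 2 + G ^ 2 * Bd.indicator (1 : Conf → ℝ) x) ∂bern :=
          integral_mono hint ((integrable_const _).add hint2) h2
      _ = ε₂ ^ 2 * G ^ 2 + G ^ 2 * bern.real Bd := by
          rw [integral_add (integrable_const _) hint2, integral_const, integral_const_mul,
            integral_indicator_one hBdm]
          simp
  have hBdle : bern.real Bd ≤ τ * ε₁ ^ 2 / 4 := by
    have h2 := hld w a b ha hb hab n i m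
    rw [hBd]
    exact h2.trans (hm1 m (by omega)).le
  have htot : ∫ x, (∑ t ∈ range G, ((O t).indicator (1 : Conf → ℝ) x - f)) ^ 2 ∂(wm Ω wt X) ≤
      τ * (ε₁ * G) ^ 2 := by
    have h2 := hsq.trans (add_le_add hbsq le_rfl)
    have h3 : (G : ℝ) ^ 2 * bern.real Bd ≤ G ^ 2 * (τ * ε₁ ^ 2 / 4) := by gcongr
    have h4 : ε₂ ^ 2 * (G : ℝ) ^ 2 ≤ (τ * ε₁ ^ 2 / 4) * G ^ 2 := by gcongr
    have h5 : 3 * Δ * (G : ℝ) ^ 2 ≤ (τ * ε₁ ^ 2 / 4) * G ^ 2 := by gcongr
    have h6 : 0 ≤ τ * ε₁ ^ 2 * (G : ℝ) ^ 2 := by positivity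
    nlinarith
  rw [wm_int h0] at htot
  -- Chebyshev
  have hεG : 0 < (ε₁ * G) ^ 2 := by positivity
  have hfin : (∑ x ∈ Ω, if ε₁ * (G : ℕ) < |(cnt w n i a b G (putW y s N (v x).toNat) : ℝ) - (G : ℕ) * frq w|
      then wt x else 0) * (ε₁ * G) ^ 2 ≤ τ * (ε₁ * G) ^ 2 := by
    refine le_trans ?_ htot
    rw [sum_mul]
    refine sum_le_sum fun x hx => ?_
    rw [smul_eq_mul, ← hcI (X x), hX, hf]
    split_ifs with h2
    · apply mul_le_mul_of_nonneg_left _ (h0 x hx)
      rw [← sq_abs ((cnt w n i a b G (putW y s N (v x).toNat) : ℝ) - (G : ℕ) * frq w)]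
      gcongr
    · rw [zero_mul]
      exact mul_nonneg (h0 x hx) (sq_nonneg _)
  exact le_of_mul_le_mul_right hfin hεG

end Pool.Agent.K3h54.RD
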