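import Pool.Agent.K3h54.RD.Mom
import Pool.Agent.Y933.KH.Freq

/-!
# Thin families of configurations: frequencies in all long windows of a line
-/

set_option autoImplicit false

namespace Pool.Agent.K3h54.RD

open Finset MeasureTheory Real
open Pool.Agent.H429R2.Auto
open Pool.Agent.Y933.KH
open Pool.Agent.R459.Eq (Decays)

/-- all patterns stand with the right frequency in all long windows of the line in the cone -/
def GoodL (A D : ℕ) (δ ε : ℝ) (N : ℕ) (s : ℤ) (n : ℕ) (i : ℤ) (a : ℕ) (b : ℤ) (X : Conf) : Prop :=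
  ∀ (w : Fin D → Fin D → Fin 6) (t₀ T : ℕ), ε * N ≤ T →
    (∀ t < T, Inn A N δ s (n + (t₀ + t) * a) (i + ((t₀ + t : ℕ) : ℤ) * b)) →
    |(cnt w (n + t₀ * a) (i + (t₀ : ℤ) * b) a b T X : ℝ) - T * frq w| ≤ ε * T

/-- the blocks of a line in the cone -/
def BK (A : ℕ) (δ : ℝ) (N : ℕ) (s : ℤ) (n : ℕ) (i : ℤ) (a : ℕ) (b : ℤ) (G : ℕ) : Set ℕ :=
  {k | ∀ t < G, Inn A N δ s (n + (k * G + t) * a) (i + ((k * G + t : ℕ) : ℤ) * b)}

lemma cone_len {A N : ℕ} {δ : ℝ} (hδ : 0 < δ) {s : ℤ} {n : ℕ} {i : ℤ} {a : ℕ} {b : ℤ}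
    (hab : a ≠ 0 ∨ b ≠ 0) {u u' : ℕ} (huu : u ≤ u') (h : Inn A N δ s (n + u * a) (i + (u : ℤ) * b))
    (h' : Inn A N δ s (n + u' * a) (i + (u' : ℤ) * b)) : ((u' : ℝ) - u) ≤ (2 * A + 1) * N := by
  have hA0 : (0 : ℝ) ≤ A := Nat.cast_nonneg A
  have hN0 : (0 : ℝ) ≤ N := Nat.cast_nonneg N
  have huR : (u : ℝ) ≤ u' := by exact_mod_cast huu
  obtain ⟨h1, h2, h3, h4⟩ := h
  obtain ⟨h1', h2', h3', h4'⟩ := h'
  rcases Nat.eq_zero_or_pos a with ha | ha
  · have hb : b ≠ 0 := by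
      rcases hab with h5 | h5
      · exact absurd ha h5
      · exact h5
    subst ha
    simp only [mul_zero, add_zero] at h1 h2 h3 h4 h1' h2' h3' h4'
    have h5 : (1 : ℝ) ≤ |(b : ℝ)| := by
      have : (1 : ℤ) ≤ |b| := Int.one_le_abs hb
      exact_mod_cast this
    have h6 : ((u' : ℝ) - u) ≤ |((u' : ℝ) - u) * b| := by
      rw [abs_mul, abs_of_nonneg (by linarith)]
      nlinarith
    refine h6.trans ?_
    have hn : (n : ℝ) ≤ A * N := by exact_mod_cast h2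
    have hn0 : (0 : ℝ) ≤ n := Nat.cast_nonneg n
    have hk0 := kap_nonneg
    have hk1 := kap_le_one
    have h7 : (n : ℝ) * kap ≤ n := by nlinarith
    have h8 : 0 ≤ δ * N := by positivity
    push_cast at h3 h4 h3' h4'
    rw [abs_le]
    constructor <;> nlinarith
  · have haR : (1 : ℝ) ≤ a := by exact_mod_cast ha
    have h5 : ((n + u' * a : ℕ) : ℝ) ≤ A * N := by exact_mod_cast h2'
    push_cast at h5
    have hn0 : (0 : ℝ) ≤ n := Nat.cast_nonneg n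
    have hu0 : (0 : ℝ) ≤ u := Nat.cast_nonneg u
    have hu0' : (0 : ℝ) ≤ u' := Nat.cast_nonneg u'
    nlinarith

open Classical in
/-- the blocks are few -/
lemma few_blocks {A N : ℕ} {δ : ℝ} (hδ : 0 < δ) (s : ℤ) (n : ℕ) (i : ℤ) {a : ℕ} {b : ℤ}
    (hab : a ≠ 0 ∨ b ≠ 0) {G : ℕ} {c0 : ℝ} (hc0 : 0 < c0) (hN : 0 < N) (hG : c0 / 2 * N ≤ G) :
    ∃ KF : Finset ℕ, (∀ k, k ∈ KF ↔ k ∈ BK A δ N s n i a b G) ∧
      (KF.card : ℝ) ≤ (4 * A + 2) / c0 + 1 := by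
  have hNR : (0 : ℝ) < N := by exact_mod_cast hN
  have hGR : (0 : ℝ) < G := lt_of_lt_of_le (by positivity) hG
  have hG0 : 0 < G := by exact_mod_cast hGR
  rcases Set.eq_empty_or_nonempty (BK A δ N s n i a b G) with h | h
  · refine ⟨∅, fun k => by rw [h]; simp, ?_⟩
    simp only [card_empty, Nat.cast_zero]
    positivity
  · obtain ⟨R, hR⟩ : ∃ R : ℕ, R = ⌊(4 * A + 2) / c0⌋₊ := ⟨_, rfl⟩
    have hR1 : (R : ℝ) ≤ (4 * A + 2) / c0 := by rw [hR]; exact Nat.floor_le (by positivity)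
    obtain ⟨k₀, hk₀, hmin⟩ : ∃ k₀ ∈ BK A δ N s n i a b G, ∀ k ∈ BK A δ N s n i a b G, k₀ ≤ k :=
      ⟨sInf (BK A δ N s n i a b G), Nat.sInf_mem h, fun k hk => Nat.sInf_le hk⟩
    refine ⟨(Finset.Icc k₀ (k₀ + R)).filter (fun k => k ∈ BK A δ N s n i a b G), fun k => ?_, ?_⟩
    · rw [mem_filter, Finset.mem_Icc]
      refine ⟨fun h1 => h1.2, fun h1 => ⟨⟨hmin k h1, ?_⟩, h1⟩⟩
      have h2 := hk₀ 0 hG0
      have h3 := h1 0 hG0
      simp only [add_zero] at h2 h3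
      have h4 := cone_len hδ hab (Nat.mul_le_mul_right G (hmin k h1)) h2 h3
      push_cast at h4
      have h5 : ((k : ℝ) - k₀) * (c0 / 2 * N) ≤ (2 * A + 1) * N := by
        have h6 : (k₀ : ℝ) ≤ k := by exact_mod_cast hmin k h1
        calc ((k : ℝ) - k₀) * (c0 / 2 * N) ≤ ((k : ℝ) - k₀) * G := by
              apply mul_le_mul_of_nonneg_left hG (by linarith)
          _ = k * G - k₀ * G := by ring
          _ ≤ _ := h4
      have h6 : ((k : ℝ) - k₀) ≤ (4 * A + 2) / c0 := by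
        rw [le_div_iff₀ hc0]
        have h7 : (((k : ℝ) - k₀) * c0) * N ≤ (4 * A + 2) * N := by linarith
        exact le_of_mul_le_mul_right h7 hNR
      have h7 : k - k₀ ≤ R := by
        rw [hR]
        apply Nat.le_floor
        rw [Nat.cast_sub (hmin k h1)]
        exact h6
      omega
    · have h1 : (((Finset.Icc k₀ (k₀ + R)).filter (fun k => k ∈ BK A δ N s n i a b G)).card : ℝ) ≤ R + 1 := by
        have h2 : ((Finset.Icc k₀ (k₀ + R)).filter (fun k => k ∈ BK A δ N s n i a b G)).card ≤ R + 1 := by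
          refine (card_filter_le _ _).trans ?_
          rw [Nat.card_Icc]
          omega
        exact_mod_cast h2
      linarith

/-- from the blocks to the windows -/
lemma good_of_blocks {A D : ℕ} {δ ε : ℝ} (hε : 0 < ε) {N : ℕ} (s : ℤ) (n : ℕ) (i : ℤ) (a : ℕ)
    (b : ℤ) (X : Conf) {G : ℕ} (hG0 : 0 < G) (hG1 : 4 * (G : ℝ) ≤ ε * N) (hG2 : 4 * (G : ℝ) ≤ ε * (ε * N))
    (h : ∀ k ∈ BK A δ N s n i a b G, ∀ w : Fin D → Fin D → Fin 6,
      |(cnt w (n + (k * G) * a) (i + ((k * G : ℕ) : ℤ) * b) a b G X : ℝ) - G * frq w| ≤ ε / 2 * G) :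
    GoodL A D δ ε N s n i a b X := by
  intro w t₀ T hT hin
  have hG0R : (0 : ℝ) < G := by exact_mod_cast hG0
  have hGT : 4 * G ≤ T := by
    have : 4 * (G : ℝ) ≤ T := hG1.trans hT
    exact_mod_cast this
  obtain ⟨k₁, hk₁⟩ : ∃ k₁ : ℕ, k₁ = (t₀ + G - 1) / G := ⟨_, rfl⟩
  have hk1a : t₀ ≤ k₁ * G ∧ k₁ * G < t₀ + G := by
    have h1 := Nat.div_add_mod (t₀ + G - 1) G
    have h2 := Nat.mod_lt (t₀ + G - 1) hG0
    rw [← hk₁, mul_comm] at h1
    omega
  obtain ⟨T₁, hT₁⟩ : ∃ T₁, T₁ + t₀ = k₁ * G := ⟨k₁ * G - t₀, by omega⟩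
  obtain ⟨K, hK⟩ : ∃ K : ℕ, K = (T - T₁) / G := ⟨_, rfl⟩
  obtain ⟨T₃, hT₃⟩ : ∃ T₃ : ℕ, T₃ = (T - T₁) % G := ⟨_, rfl⟩
  have hsum : T₁ + K * G + T₃ = T := by
    have h1 := Nat.div_add_mod (T - T₁) G
    rw [← hK, ← hT₃, mul_comm] at h1
    omega
  have hT3 : T₃ < G := by rw [hT₃]; exact Nat.mod_lt _ hG0
  have hT1 : T₁ < G := by omega
  have hf0 := frq_nonneg w
  have hf1 := frq_le w
  have hsplit : cnt w (n + t₀ * a) (i + (t₀ : ℤ) * b) a b T X =
      cnt w (n + t₀ * a) (i + (t₀ : ℤ) * b) a b T₁ X +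
      cnt w (n + t₀ * a + T₁ * a) (i + (t₀ : ℤ) * b + T₁ * b) a b (K * G) X +
      cnt w (n + t₀ * a + (T₁ + K * G) * a) (i + (t₀ : ℤ) * b + ((T₁ + K * G : ℕ) : ℤ) * b) a b T₃ X := by
    rw [← hsum, cnt_add, cnt_add]
  have hblocks := cnt_blocks w a b G X (ε / 2 * G) K (n + t₀ * a + T₁ * a)
    (i + (t₀ : ℤ) * b + T₁ * b) (by
      intro k hk
      have hmem : k₁ + k ∈ BK A δ N s n i a b G := by
        intro t ht
        have h3 : T₁ + k * G + t < T := by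
          have : (k + 1) * G ≤ K * G := Nat.mul_le_mul_right G hk
          rw [add_mul, one_mul] at this
          omega
        have h4 := hin (T₁ + k * G + t) h3
        have e1 : t₀ + (T₁ + k * G + t) = (k₁ + k) * G + t := by
          rw [add_mul]
          omega
        rw [e1] at h4
        exact h4
      have h3 := h (k₁ + k) hmem w
      have e1 : n + (k₁ + k) * G * a = n + t₀ * a + T₁ * a + k * G * a := by
        rw [add_mul k₁ k G, ← hT₁]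
        ring
      have e2 : i + (((k₁ + k) * G : ℕ) : ℤ) * b = i + (t₀ : ℤ) * b + T₁ * b + ((k * G : ℕ) : ℤ) * b := by
        rw [add_mul k₁ k G, ← hT₁]
        push_cast
        ring
      rw [e1, e2] at h3
      exact h3)
  have hle : ∀ (n' : ℕ) (i' : ℤ) (T' : ℕ), |(cnt w n' i' a b T' X : ℝ) - T' * frq w| ≤ T' := by
    intro n' i' T'
    have h1 : (cnt w n' i' a b T' X : ℝ) ≤ T' := by exact_mod_cast cnt_le w n' i' a b T' X
    have h2 : (0 : ℝ) ≤ cnt w n' i' a b T' X := Nat.cast_nonneg _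
    have h3 : (0 : ℝ) ≤ T' := Nat.cast_nonneg _
    have h4 : (T' : ℝ) * frq w ≤ T' := by nlinarith
    have h5 : 0 ≤ (T' : ℝ) * frq w := by positivity
    rw [abs_le]
    constructor <;> linarith
  have h1 := hle (n + t₀ * a) (i + (t₀ : ℤ) * b) T₁
  have h3 := hle (n + t₀ * a + (T₁ + K * G) * a) (i + (t₀ : ℤ) * b + ((T₁ + K * G : ℕ) : ℤ) * b) T₃
  rw [hsplit]
  have hTR : (T : ℝ) = T₁ + K * G + T₃ := by
    rw [← hsum]
    push_cast
    ring
  have hT1R : (T₁ : ℝ) ≤ G := by exact_mod_cast hT1.le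
  have hT3R : (T₃ : ℝ) ≤ G := by exact_mod_cast hT3.le
  have hT10 : (0 : ℝ) ≤ T₁ := Nat.cast_nonneg _
  have hT30 : (0 : ℝ) ≤ T₃ := Nat.cast_nonneg _
  have hKG : (K : ℝ) * (ε / 2 * G) ≤ ε / 2 * T := by
    rw [hTR]
    have : 0 ≤ ε / 2 * (T₁ + T₃) := by positivity
    linarith
  have h2G : 2 * (G : ℝ) ≤ ε / 2 * T := by
    have h4 : ε * (ε * N) ≤ ε * T := by gcongr
    linarith
  have hk := abs_le.1 hblocks
  have h1' := abs_le.1 h1
  have h3' := abs_le.1 h3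
  have e : (T : ℝ) * frq w = T₁ * frq w + K * G * frq w + T₃ * frq w := by rw [hTR]; ring
  rw [e]
  clear h1 h3 hblocks hsplit
  generalize cnt w (n + t₀ * a) (i + (t₀ : ℤ) * b) a b T₁ X = c1 at h1' ⊢
  generalize cnt w (n + t₀ * a + T₁ * a) (i + (t₀ : ℤ) * b + T₁ * b) a b (K * G) X = c2 at hk ⊢
  generalize cnt w (n + t₀ * a + (T₁ + K * G) * a) (i + (t₀ : ℤ) * b + ((T₁ + K * G : ℕ) : ℤ) * b)
    a b T₃ X = c3 at h3' ⊢
  push_cast
  rw [abs_le]
  constructor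
  · linarith [hk.1, h1'.1, h3'.1]
  · linarith [hk.2, h1'.2, h3'.2]

open Classical in
/-- **thin families** -/
theorem thin (A D : ℕ) (δ ε : ℝ) (hδ : 0 < δ) (hε : 0 < ε) (F A' : ℕ) (hF : 1 ≤ F) (γ : ℝ)
    (hγ0 : 0 < γ) (hγ1 : γ < 1) : ∃ N0 : ℕ, ∀ N : ℕ, N0 ≤ N →
    ∀ (y : Conf) (s : ℤ) (a : ℕ) (b : ℤ), a ≤ D → |b| ≤ D → (a ≠ 0 ∨ b ≠ 0) → ∀ (n : ℕ) (i : ℤ),
    ∀ (ι : Type) (Ω : Finset ι) (wt : ι → ℝ) (v : ι → ℤ), Decays 6 F A' N γ 1 Ω wt v →
    (∀ x ∈ Ω, 0 ≤ v x ∧ v x < 6 ^ N) →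
    (∑ x ∈ Ω, if ¬ GoodL A D δ ε N s n i a b (putW y s N (v x).toNat) then wt x else 0) ≤ ε := by
  obtain ⟨c0, hc0, hc1, hc2, hc3⟩ : ∃ c0 : ℝ, 0 < c0 ∧ (D + 1) * c0 ≤ min δ 1 / 16 ∧ 4 * c0 ≤ ε ∧
      4 * c0 ≤ ε * ε := by
    have hm : 0 < min δ 1 := lt_min hδ one_pos
    refine ⟨min (min δ 1 / 16 / (D + 1)) (min (ε / 4) (ε * ε / 4)), by positivity, ?_, ?_, ?_⟩
    · calc ((D : ℝ) + 1) * min (min δ 1 / 16 / (D + 1)) (min (ε / 4) (ε * ε / 4)) ≤
            (D + 1) * (min δ 1 / 16 / (D + 1)) := by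
              gcongr
              exact min_le_left _ _
        _ = min δ 1 / 16 := by field_simp
    · have h1 : min (min δ 1 / 16 / ((D : ℝ) + 1)) (min (ε / 4) (ε * ε / 4)) ≤ ε / 4 :=
        (min_le_right _ _).trans (min_le_left _ _)
      linarith
    · have h1 : min (min δ 1 / 16 / ((D : ℝ) + 1)) (min (ε / 4) (ε * ε / 4)) ≤ ε * ε / 4 :=
        (min_le_right _ _).trans (min_le_right _ _)
      linarith
  obtain ⟨CB, hCB⟩ : ∃ CB : ℝ, CB = (4 * A + 2) / c0 + 1 := ⟨_, rfl⟩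
  have hCB0 : 0 < CB := by rw [hCB]; positivity
  obtain ⟨P, hP⟩ : ∃ P : ℕ, P = Fintype.card (Fin D → Fin D → Fin 6) := ⟨_, rfl⟩
  have hP0 : (0 : ℝ) < P := by rw [hP]; exact_mod_cast Fintype.card_pos
  obtain ⟨τ, hτ⟩ : ∃ τ : ℝ, τ = ε / (CB * P) := ⟨_, rfl⟩
  have hτ0 : 0 < τ := by rw [hτ]; positivity
  obtain ⟨g, N1, hg, hblock⟩ := block A D δ hδ F A' hF γ hγ0 hγ1 (ε / 2) τ c0 (by positivity) hτ0 hc0 hc1
  refine ⟨N1 + 1, fun N hN y s a b ha hb hab n i ι Ω wt v hdec hv => ?_⟩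
  have hNR : (0 : ℝ) < N := by exact_mod_cast (by omega : 0 < N)
  obtain ⟨hG2, hG1, hbl⟩ := hblock N (by omega)
  obtain ⟨G, hG⟩ : ∃ G : ℕ, G = g * ⌊c0 * N / g⌋₊ := ⟨_, rfl⟩
  rw [← hG] at hG2 hG1 hbl
  have hGR : (0 : ℝ) < G := lt_of_lt_of_le (by positivity) hG2
  have hG0 : 0 < G := by exact_mod_cast hGR
  obtain ⟨KF, hKF, hKFc⟩ := few_blocks hδ s n i hab hc0 (by omega : 0 < N) hG2 (A := A)
  rw [← hCB] at hKFc
  have h0 := hdec.nonneg
  -- the bad events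
  obtain ⟨bad, hbad⟩ : ∃ bad : ℕ → (Fin D → Fin D → Fin 6) → ι → Prop, bad = fun k w x =>
      ε / 2 * (G : ℕ) < |(cnt w (n + (k * G) * a) (i + ((k * G : ℕ) : ℤ) * b) a b G
        (putW y s N (v x).toNat) : ℝ) - (G : ℕ) * frq w| := ⟨_, rfl⟩
  have hone : ∀ k ∈ KF, ∀ w, (∑ x ∈ Ω, if bad k w x then wt x else 0) ≤ τ := by
    intro k hk w
    have h1 := (hKF k).1 hk
    have h2 := hbl y s w a b ha hb hab (n + (k * G) * a) (i + ((k * G : ℕ) : ℤ) * b) (by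
      intro t ht
      have h3 := h1 t ht
      have e1 : n + (k * G + t) * a = n + (k * G) * a + t * a := by ring
      have e2 : i + ((k * G + t : ℕ) : ℤ) * b = i + ((k * G : ℕ) : ℤ) * b + t * b := by
        push_cast; ring
      rw [e1, e2] at h3
      exact h3) ι Ω wt v hdec hv
    rw [hbad]
    exact h2
  have hcov : ∀ x ∈ Ω, (if ¬ GoodL A D δ ε N s n i a b (putW y s N (v x).toNat) then wt x else 0) ≤
      ∑ k ∈ KF, ∑ w : Fin D → Fin D → Fin 6, if bad k w x then wt x else 0 := by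
    intro x hx
    have hnn : ∀ k ∈ KF, ∀ w ∈ (univ : Finset (Fin D → Fin D → Fin 6)), 0 ≤ (if bad k w x then wt x else 0) := by
      intro k _ w _
      split_ifs
      · exact h0 x hx
      · exact le_rfl
    by_cases h1 : ¬ GoodL A D δ ε N s n i a b (putW y s N (v x).toNat)
    · rw [if_pos h1]
      obtain ⟨k, hk, w, hkw⟩ : ∃ k ∈ KF, ∃ w, bad k w x := by
        by_contra hcon
        push Not at hcon
        apply h1
        refine good_of_blocks hε s n i a b _ hG0 ?_ ?_ ?_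
        · calc 4 * (G : ℝ) ≤ 4 * (c0 * N) := by gcongr
            _ = (4 * c0) * N := by ring
            _ ≤ ε * N := by gcongr
        · calc 4 * (G : ℝ) ≤ 4 * (c0 * N) := by gcongr
            _ = (4 * c0) * N := by ring
            _ ≤ (ε * ε) * N := by gcongr
            _ = ε * (ε * N) := by ring
        · intro k hk w
          have h2 := hcon k ((hKF k).2 hk) w
          rw [hbad] at h2
          simp only [not_lt] at h2
          exact h2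
      calc wt x = if bad k w x then wt x else 0 := by rw [if_pos hkw]
        _ ≤ ∑ w : Fin D → Fin D → Fin 6, if bad k w x then wt x else 0 :=
            single_le_sum (f := fun w => if bad k w x then wt x else 0) (hnn k hk) (mem_univ w)
        _ ≤ _ := single_le_sum (f := fun k => ∑ w : Fin D → Fin D → Fin 6, if bad k w x then wt x else 0)
            (fun k hk => sum_nonneg (hnn k hk)) hk
    · rw [if_neg h1]
      exact sum_nonneg fun k hk => sum_nonneg (hnn k hk)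
  calc _ ≤ ∑ x ∈ Ω, ∑ k ∈ KF, ∑ w : Fin D → Fin D → Fin 6, (if bad k w x then wt x else 0) := sum_le_sum hcov
    _ = ∑ k ∈ KF, ∑ w : Fin D → Fin D → Fin 6, ∑ x ∈ Ω, (if bad k w x then wt x else 0) := by
        rw [sum_comm]
        refine sum_congr rfl fun k _ => ?_
        rw [sum_comm]
    _ ≤ ∑ _k ∈ KF, ∑ _w : Fin D → Fin D → Fin 6, τ := sum_le_sum fun k hk => sum_le_sum fun w _ => hone k hk w
    _ = KF.card * (P * τ) := by
        rw [sum_const, sum_const, card_univ, ← hP]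
        simp only [nsmul_eq_mul]
    _ ≤ CB * (P * τ) := by gcongr
    _ = ε := by
        rw [hτ]
        field_simp

end Pool.Agent.K3h54.RD
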